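import Pool.Agent.E6s.St

set_option autoImplicit false

namespace Pool.Agent.E6s

/-- An element of `U ⊔ V` is congruent modulo `U` to an element of the normal subgroup `V`. -/
theorem rep_Avg {G : Type} [Group G] {U V : Subgroup G} [V.Normal] {q : G} (h : q ∈ U ⊔ V) :
    ∃ w : V, (w : G)⁻¹ * q ∈ U := by
  rw [sup_comm] at h
  obtain ⟨y, hy, z, hz, rfl⟩ := Subgroup.mem_sup_of_normal_left.1 h
  exact ⟨⟨y, hy⟩, by simpa using hz⟩

/-- A cocycle modulo `W` with values in a group of coprime order is a coboundary modulo `W`. -/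
theorem coc_Avg {M Q : Type} [CommGroup M] [Group Q] [Finite Q] (φ : Q → M →* M)
    (W : Subgroup M) (w : Q → M) (hw : ∀ r q, (w (r * q))⁻¹ * (φ r (w q) * w r) ∈ W)
    (hc : (Nat.card Q).Coprime (Nat.card M)) : ∃ v : M, ∀ r, v⁻¹ * (φ r v * w r) ∈ W := by
  let _ : Fintype Q := Fintype.ofFinite Q
  obtain ⟨a, ha⟩ : ∃ a : ℤ, ∀ x : M, (x ^ Fintype.card Q) ^ a = x := by
    refine ⟨(Nat.card Q).gcdA (Nat.card M), fun x => ?_⟩
    have h1 := Nat.gcd_eq_gcd_ab (Nat.card Q) (Nat.card M)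
    rw [hc.gcd_eq_one, Nat.cast_one] at h1
    have h2 : x ^ (1 : ℤ) = x := zpow_one x
    rw [h1, zpow_add, zpow_mul, zpow_mul, zpow_natCast, zpow_natCast, pow_card_eq_one',
      one_zpow, mul_one] at h2
    rw [← Nat.card_eq_fintype_card]
    exact h2
  refine ⟨(∏ q, w q) ^ a, fun r => ?_⟩
  have h1 : ∏ q, ((w (r * q))⁻¹ * (φ r (w q) * w r)) ∈ W := W.prod_mem fun q _ => hw r q
  have h2 : ∏ q, w (r * q) = ∏ q, w q := Equiv.prod_comp (Equiv.mulLeft r) w
  rw [Finset.prod_mul_distrib, Finset.prod_mul_distrib, Finset.prod_inv_distrib, h2,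
    ← map_prod, Finset.prod_const, Finset.card_univ] at h1
  have h3 := W.zpow_mem h1 a
  rwa [mul_zpow, mul_zpow, ha, inv_zpow, ← map_zpow] at h3

theorem s_avg : SAvg := by
  intro G _ _ V U Q hV hc hcop hQ
  let _ : CommGroup V :=
    { (inferInstance : Group V) with mul_comm := fun a b => Subtype.ext (hc a a.2 b b.2) }
  choose w hw using fun q : Q => rep_Avg (hQ q.2)
  obtain ⟨v, hv⟩ := coc_Avg (M := V) (Q := Q)
    (fun r => (MulAut.conjNormal (H := V) (r : G)).toMonoidHom) (U.subgroupOf V) w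
    (fun r q => by
      have h := U.mul_mem (U.mul_mem (hw (r * q)) (U.inv_mem (hw q))) (U.inv_mem (hw r))
      have e : ((w (r * q) : G)⁻¹ * ((r * q : Q) : G)) * ((w q : G)⁻¹ * q)⁻¹ *
          ((w r : G)⁻¹ * r)⁻¹ = (w (r * q) : G)⁻¹ * ((r * w q * (r : G)⁻¹) * w r) := by
        rw [Subgroup.coe_mul]
        group
      rw [e] at h
      exact h) hcop
  refine ⟨v, v.2, fun r hr => ?_⟩
  have h1 : (v : G)⁻¹ * ((r * v * r⁻¹) * w ⟨r, hr⟩) ∈ U := hv ⟨r, hr⟩
  refine ⟨_, U.mul_mem h1 (hw ⟨r, hr⟩), ?_⟩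
  simp [mul_assoc]

theorem s_rel : SRel := by
  intro Γ _ A B U hA hAB hB
  refine (Nat.card_congr (Equiv.ofBijective (Subgroup.quotientSubgroupOfEmbeddingOfLE U hAB)
    ⟨Function.Embedding.injective _, fun x => ?_⟩)).symm
  obtain ⟨b, rfl⟩ := QuotientGroup.mk_surjective x
  obtain ⟨w, hw⟩ := rep_Avg (hB b.2)
  refine ⟨QuotientGroup.mk w, ?_⟩
  rw [Subgroup.quotientSubgroupOfEmbeddingOfLE_apply_mk]
  exact QuotientGroup.eq.2 hw

end Pool.Agent.E6s
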