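import Pool.Agent.E6b.SurfDefs

set_option autoImplicit false

namespace Pool.Agent.E6s

open MvPolynomial Pool.Agent.E6b

/-- The Weierstrass cubic `W² Z = U³ + a U Z² + b Z³` in the affine chart `W = 1`, with
coordinates `(U, Z)`; its point at infinity is the origin. The cubic may be singular. -/
def cubic {Ω : Type} [Field Ω] (a b : Ω) : Set (Fin 2 → Ω) :=
  {y | y 1 = y 0 ^ 3 + a * y 0 * y 1 ^ 2 + b * y 1 ^ 3}

/-- `X_K` is covered by curves of genus at most one: every geometric point `x` of `X` outside a
proper hypersurface section defined over `K` is the image of the origin under a map from a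
Weierstrass cubic to `X`, defined over the residue field of `x` and injective outside a finite
set. -/
def Covered {k : Type} [Field k] (X : NiceSurface k) (K : Type) [Field K] [Algebra k K] : Prop :=
  ∃ (m : ℕ) (h : MvPolynomial (Fin (X.n + 1)) K), h.IsHomogeneous m ∧
    h ∉ X.I.map (MvPolynomial.map (algebraMap k K)) ∧
    ∀ x : Fin (X.n + 1) → AlgebraicClosure K, x ≠ 0 → (∀ f ∈ X.I, aeval x f = 0) →
      aeval x h ≠ 0 →
      ∃ (a b c : AlgebraicClosure K)
        (P : Fin (X.n + 1) → MvPolynomial (Fin 2) (AlgebraicClosure K))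
        (S : Set (Fin 2 → AlgebraicClosure K)),
        a ∈ residueFieldAt K x ∧ b ∈ residueFieldAt K x ∧
        (∀ i d, coeff d (P i) ∈ residueFieldAt K x) ∧ (∀ i, x i = c * eval 0 (P i)) ∧
        (∀ y ∈ cubic a b, ∀ f ∈ X.I, aeval (fun i => eval y (P i)) f = 0) ∧ S.Finite ∧
        ∀ y ∈ cubic a b \ S, ∀ y' ∈ cubic a b \ S,
          (∀ i j, eval y (P i) * eval y' (P j) = eval y (P j) * eval y' (P i)) → y = y'

end Pool.Agent.E6s
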