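import Pool.Agent.E6s.St2

set_option autoImplicit false

namespace Pool.Agent.E6s

open MvPolynomial

section
variable {Ω : Type} [Field Ω]

theorem ev_Elim (F : Polynomial Ω) (x : Fin 2 → Ω) (i : Fin 2) :
    eval x (Polynomial.aeval (X i : MvPolynomial (Fin 2) Ω) F) = F.eval (x i) := by
  have := (Polynomial.aeval_algHom_apply
    (MvPolynomial.aeval x : MvPolynomial (Fin 2) Ω →ₐ[Ω] Ω) (X i) F).symm
  simpa [coe_aeval_eq_eval] using this

/-- Functions on the product of the curves written in the basis `1, w, w', w w'`. -/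
def Rep_Elim (F F' : Polynomial Ω) (g : (Fin 2 → Ω) → (Fin 2 → Ω) → Ω) : Prop :=
  ∃ A B C D : MvPolynomial (Fin 2) Ω, ∀ y ∈ hyp F, ∀ y' ∈ hyp F',
    g y y' = eval ![y 0, y' 0] A + eval ![y 0, y' 0] B * y 1 + eval ![y 0, y' 0] C * y' 1 +
      eval ![y 0, y' 0] D * (y 1 * y' 1)

variable {F F' : Polynomial Ω}

theorem rep_const_Elim (a : Ω) : Rep_Elim F F' fun _ _ => a :=
  ⟨C a, 0, 0, 0, fun y _ y' _ => by simp⟩

theorem rep_add_Elim {g h : (Fin 2 → Ω) → (Fin 2 → Ω) → Ω} (hg : Rep_Elim F F' g)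
    (hh : Rep_Elim F F' h) : Rep_Elim F F' fun y y' => g y y' + h y y' := by
  obtain ⟨A, B, C, D, e⟩ := hg
  obtain ⟨A2, B2, C2, D2, e2⟩ := hh
  refine ⟨A + A2, B + B2, C + C2, D + D2, fun y hy y' hy' => ?_⟩
  simp only [map_add, e y hy y' hy', e2 y hy y' hy']
  ring

theorem rep_mul_Elim {g h : (Fin 2 → Ω) → (Fin 2 → Ω) → Ω} (hg : Rep_Elim F F' g)
    (hh : Rep_Elim F F' h) : Rep_Elim F F' fun y y' => g y y' * h y y' := by
  obtain ⟨A, B, C, D, e⟩ := hg
  obtain ⟨A2, B2, C2, D2, e2⟩ := hh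
  let f : MvPolynomial (Fin 2) Ω := Polynomial.aeval (X 0) F
  let f' : MvPolynomial (Fin 2) Ω := Polynomial.aeval (X 1) F'
  refine ⟨A * A2 + f * B * B2 + f' * C * C2 + f * f' * D * D2,
    A * B2 + B * A2 + f' * (C * D2 + D * C2), A * C2 + C * A2 + f * (B * D2 + D * B2),
    A * D2 + D * A2 + B * C2 + C * B2, fun y hy y' hy' => ?_⟩
  have h1 : eval ![y 0, y' 0] f = y 1 ^ 2 := (ev_Elim F _ 0).trans (Eq.symm hy)
  have h2 : eval ![y 0, y' 0] f' = y' 1 ^ 2 := (ev_Elim F' _ 1).trans (Eq.symm hy')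
  simp only [map_add, map_mul, e y hy y' hy', e2 y hy y' hy', h1, h2]
  ring

theorem rep_left_Elim (p : MvPolynomial (Fin 2) Ω) : Rep_Elim F F' fun y _ => eval y p := by
  induction p using MvPolynomial.induction_on with
  | C a => simpa using rep_const_Elim a
  | add p q hp hq => simpa using rep_add_Elim hp hq
  | mul_X p i hp =>
    have : Rep_Elim F F' fun y _ => y i := by
      fin_cases i
      · exact ⟨X 0, 0, 0, 0, fun y _ y' _ => by simp⟩
      · exact ⟨0, 1, 0, 0, fun y _ y' _ => by simp⟩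
    simpa using rep_mul_Elim hp this

theorem rep_right_Elim (p : MvPolynomial (Fin 2) Ω) : Rep_Elim F F' fun _ y' => eval y' p := by
  induction p using MvPolynomial.induction_on with
  | C a => simpa using rep_const_Elim a
  | add p q hp hq => simpa using rep_add_Elim hp hq
  | mul_X p i hp =>
    have : Rep_Elim F F' fun _ y' => y' i := by
      fin_cases i
      · exact ⟨X 1, 0, 0, 0, fun y _ y' _ => by simp⟩
      · exact ⟨0, 0, 1, 0, fun y _ y' _ => by simp⟩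
    simpa using rep_mul_Elim hp this

theorem rep_sum_Elim {κ : Type} (t : Finset κ) (g : κ → (Fin 2 → Ω) → (Fin 2 → Ω) → Ω)
    (hg : ∀ k, Rep_Elim F F' (g k)) : Rep_Elim F F' fun y y' => ∑ k ∈ t, g k y y' := by
  classical
  induction t using Finset.induction_on with
  | empty => simpa using rep_const_Elim 0
  | insert a t ha ih => simpa [Finset.sum_insert ha] using rep_add_Elim (hg a) ih

theorem norm_Elim {g : (Fin 2 → Ω) → (Fin 2 → Ω) → Ω} (hg : Rep_Elim F F' g) :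
    ∃ R : MvPolynomial (Fin 2) Ω, ∀ s w s' w' : Ω, w ^ 2 = F.eval s → w' ^ 2 = F'.eval s' →
      eval ![s, s'] R = g ![s, w] ![s', w'] * g ![s, -w] ![s', w'] *
        (g ![s, w] ![s', -w'] * g ![s, -w] ![s', -w']) := by
  obtain ⟨A, B, C, D, e⟩ := hg
  let f : MvPolynomial (Fin 2) Ω := Polynomial.aeval (X 0) F
  let f' : MvPolynomial (Fin 2) Ω := Polynomial.aeval (X 1) F'
  refine ⟨(A ^ 2 + C ^ 2 * f' - f * (B ^ 2 + D ^ 2 * f')) ^ 2 -
    f' * (A * C + A * C - f * (B * D + B * D)) ^ 2, fun s w s' w' hw hw' => ?_⟩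
  have h1 : eval ![s, s'] f = w ^ 2 := (ev_Elim F _ 0).trans hw.symm
  have h2 : eval ![s, s'] f' = w' ^ 2 := (ev_Elim F' _ 1).trans hw'.symm
  have m1 : ![s, w] ∈ hyp F := hw
  have m2 : ![s, -w] ∈ hyp F := by simpa [hyp] using hw
  have m3 : ![s', w'] ∈ hyp F' := hw'
  have m4 : ![s', -w'] ∈ hyp F' := by simpa [hyp] using hw'
  rw [e _ m1 _ m3, e _ m2 _ m3, e _ m1 _ m4, e _ m2 _ m4]
  simp only [map_add, map_mul, map_sub, map_pow, h1, h2, Matrix.cons_val_zero,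
    Matrix.cons_val_one, Matrix.cons_val_fin_one]
  ring

theorem pts_Elim [IsAlgClosed Ω] (F : Polynomial Ω) {T : Set (Fin 2 → Ω)} (hT : T.Finite) :
    ∃ s w : Ω, w ^ 2 = F.eval s ∧ ∀ y ∈ T, y 0 ≠ s := by
  obtain ⟨s, hs⟩ := (hT.image fun y => y 0).exists_notMem
  obtain ⟨w, hw⟩ := IsAlgClosed.exists_pow_nat_eq (F.eval s) (n := 2) two_pos
  exact ⟨s, w, hw, fun y hy h => hs ⟨y, hy, h⟩⟩

theorem nz_Elim [IsAlgClosed Ω] {ι : Type} {P : ι → MvPolynomial (Fin 2) Ω}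
    {S : Set (Fin 2 → Ω)} (hS : S.Finite) (hI : Inj F P S) {y : Fin 2 → Ω}
    (hy : y ∈ hyp F \ S) : ∃ i, eval y (P i) ≠ 0 := by
  by_contra h
  push Not at h
  obtain ⟨s, w, hw, hs⟩ := pts_Elim F (hS.insert y)
  have h2 : ![s, w] ∈ hyp F \ S := ⟨hw, fun hm => hs _ (Or.inr hm) rfl⟩
  have := hI y hy _ h2 fun i j => by rw [h i, h j, zero_mul, zero_mul]
  exact hs y (Or.inl rfl) (by rw [this]; rfl)

theorem par_Elim {ι : Type} {P : ι → MvPolynomial (Fin 2) Ω} {S : Set (Fin 2 → Ω)}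
    (hI : Inj F P S) {z : ι → Ω} (hz : ∃ i, z i ≠ 0) :
    {y | y ∈ hyp F \ S ∧ ∀ i j, z i * eval y (P j) = z j * eval y (P i)}.Finite := by
  obtain ⟨k, hk⟩ := hz
  refine Set.Subsingleton.finite fun y hy y2 hy2 => hI y hy.1 y2 hy2.1 fun i j => ?_
  refine mul_left_cancel₀ (mul_ne_zero hk hk) ?_
  linear_combination (z k * eval y2 (P j)) * hy.2 k i + (z i * eval y (P k)) * hy2.2 k j -
    (z k * eval y2 (P i)) * hy.2 k j - (z j * eval y (P k)) * hy2.2 k i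

end

theorem s_elim : SElim := by
  intro Ω ι _ _ _ F F' P P' S S' hS hS' hI hI'
  classical
  have := Fintype.ofFinite ι
  obtain ⟨s', w', hw', hs'⟩ := pts_Elim F' hS'
  have a1 : ![s', w'] ∈ hyp F' \ S' := ⟨hw', fun hm => hs' _ hm rfl⟩
  have a2 : ![s', -w'] ∈ hyp F' \ S' := ⟨by simpa [hyp] using hw', fun hm => hs' _ hm rfl⟩
  obtain ⟨s, w, hw, hs⟩ := pts_Elim F ((hS.union (par_Elim hI (nz_Elim hS' hI' a1))).union
    (par_Elim hI (nz_Elim hS' hI' a2)))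
  let m : (Fin 2 → Ω) → (Fin 2 → Ω) → ι × ι → Ω := fun y y' ij =>
    eval y' (P' ij.1) * eval y (P ij.2) - eval y' (P' ij.2) * eval y (P ij.1)
  have hm : ∀ u : Ω, u ^ 2 = F.eval s → m ![s, u] ![s', w'] ≠ 0 ∧ m ![s, u] ![s', -w'] ≠ 0 := by
    intro u hu
    have b : ![s, u] ∈ hyp F \ S := ⟨hu, fun h => hs _ (Or.inl (Or.inl h)) rfl⟩
    exact ⟨fun h => hs _ (Or.inl (Or.inr ⟨b, fun i j => sub_eq_zero.1 (congrFun h (i, j))⟩)) rfl,
      fun h => hs _ (Or.inr ⟨b, fun i j => sub_eq_zero.1 (congrFun h (i, j))⟩) rfl⟩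
  have hw2 : (-w) ^ 2 = F.eval s := by simpa using hw
  obtain ⟨φ, hφ⟩ := Module.exists_dual_forall_apply_ne_zero (K := Ω)
    ![m ![s, w] ![s', w'], m ![s, -w] ![s', w'], m ![s, w] ![s', -w'], m ![s, -w] ![s', -w']]
    (fun i => by
      fin_cases i
      exacts [(hm w hw).1, (hm _ hw2).1, (hm w hw).2, (hm _ hw2).2])
  have hrep : Rep_Elim F F' fun y y' => φ (m y y') := by
    have e : (fun y y' => φ (m y y')) =
        fun y y' => ∑ ij, m y y' ij * φ fun j => if ij = j then 1 else 0 :=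
      funext fun y => funext fun y' => LinearMap.pi_apply_eq_sum_univ φ (m y y')
    rw [e]
    refine rep_sum_Elim _ _ fun ij => rep_mul_Elim ?_ (rep_const_Elim _)
    have := rep_add_Elim (rep_mul_Elim (rep_right_Elim (F := F) (F' := F') (P' ij.1))
      (rep_left_Elim (P ij.2))) (rep_mul_Elim (rep_const_Elim (-1))
      (rep_mul_Elim (rep_right_Elim (P' ij.2)) (rep_left_Elim (P ij.1))))
    simpa [m, sub_eq_add_neg] using this
  obtain ⟨R, hR⟩ := norm_Elim hrep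
  refine ⟨R, fun h0 => ?_, fun y hy y' hy' h => ?_⟩
  · have h1 := hR s w s' w' hw hw'
    rw [h0, map_zero] at h1
    exact mul_ne_zero (mul_ne_zero (hφ 0) (hφ 1)) (mul_ne_zero (hφ 2) (hφ 3)) h1.symm
  · have e1 : ![y 0, y 1] = y := by ext i; fin_cases i <;> rfl
    have e2 : ![y' 0, y' 1] = y' := by ext i; fin_cases i <;> rfl
    have h0 : m y y' = 0 := funext fun ij => sub_eq_zero.2 (h ij.1 ij.2)
    rw [hR (y 0) (y 1) (y' 0) (y' 1) hy hy', e1, e2, h0, map_zero, zero_mul, zero_mul]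

end Pool.Agent.E6s
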