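import Mathlib

set_option autoImplicit false

namespace Pool.Agent.E6s

open MvPolynomial

/-- A geometrically integral projective variety over `k`, given by its homogeneous ideal `I`,
which stays prime over the algebraic closure. -/
structure ProjVar (k : Type) [Field k] where
  n : ℕ
  I : Ideal (MvPolynomial (Fin (n + 1)) k)
  homogeneous : ∀ f ∈ I, ∀ m : ℕ, homogeneousComponent m f ∈ I
  geomPrime : (I.map (MvPolynomial.map (algebraMap k (AlgebraicClosure k)))).IsPrime

/-- The residue field over `K` of the closed point of projective space with homogeneous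
coordinates `x`: it is generated by the ratios of the coordinates. -/
noncomputable def resField (K : Type) [Field K] {n : ℕ} (x : Fin (n + 1) → AlgebraicClosure K) :
    IntermediateField K (AlgebraicClosure K) :=
  IntermediateField.adjoin K {r | ∃ i j, r = x i / x j}

/-- Homogeneous coordinates of the geometric points of `X` lying over degree `d` points of the base
change of `X` to `K`. -/
def ProjVar.pts {k : Type} [Field k] (X : ProjVar k) (K : Type) [Field K] [Algebra k K] (d : ℕ) :
    Set (Fin (X.n + 1) → AlgebraicClosure K) :=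
  {x | x ≠ 0 ∧ (∀ f ∈ X.I, aeval x f = 0) ∧ Module.finrank K (resField K x) = d}

/-- The density degree set of `X` over `K`: the `d ≥ 1` such that the degree `d` points of the base
change `X_K` are Zariski dense, that is, every form over `K` vanishing on all of them lies in the
ideal of `X_K`. -/
def ProjVar.delta {k : Type} [Field k] (X : ProjVar k) (K : Type) [Field K] [Algebra k K] :
    Set ℕ :=
  {d | 1 ≤ d ∧ ∀ (m : ℕ) (g : MvPolynomial (Fin (X.n + 1)) K), g.IsHomogeneous m →
    (∀ x ∈ X.pts K d, aeval x g = 0) → g ∈ X.I.map (MvPolynomial.map (algebraMap k K))}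

/-- `X_K` is covered by curves of genus at most two: every geometric point `x` of `X` outside a
proper hypersurface section defined over `K` is the image of a point `(0, w₀)` under a map to `X`
from a curve `w ^ 2 = F s` with `F` separable of degree between one and six (at most four if the
point is a branch point), all defined over the residue field of `x`, the map being injective
outside a finite set. -/
def ProjVar.Covered {k : Type} [Field k] (X : ProjVar k) (K : Type) [Field K] [Algebra k K] :
    Prop :=
  ∃ (m : ℕ) (h : MvPolynomial (Fin (X.n + 1)) K), h.IsHomogeneous m ∧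
    h ∉ X.I.map (MvPolynomial.map (algebraMap k K)) ∧
    ∀ x : Fin (X.n + 1) → AlgebraicClosure K, x ≠ 0 → (∀ f ∈ X.I, aeval x f = 0) →
      aeval x h ≠ 0 →
      ∃ (F : Polynomial (AlgebraicClosure K)) (w₀ c : AlgebraicClosure K)
        (P : Fin (X.n + 1) → MvPolynomial (Fin 2) (AlgebraicClosure K))
        (S : Set (Fin 2 → AlgebraicClosure K)),
        (∀ i, F.coeff i ∈ resField K x) ∧ w₀ ∈ resField K x ∧
        (∀ i d, coeff d (P i) ∈ resField K x) ∧
        F.Separable ∧ 0 < F.natDegree ∧ F.natDegree ≤ 6 ∧ (w₀ = 0 → F.natDegree ≤ 4) ∧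
        w₀ ^ 2 = F.eval 0 ∧ (∀ i, x i = c * eval ![0, w₀] (P i)) ∧
        (∀ y : Fin 2 → AlgebraicClosure K, y 1 ^ 2 = F.eval (y 0) →
          ∀ f ∈ X.I, aeval (fun i => eval y (P i)) f = 0) ∧
        S.Finite ∧ ∀ y ∉ S, ∀ y' ∉ S, y 1 ^ 2 = F.eval (y 0) → y' 1 ^ 2 = F.eval (y' 0) →
          (∀ i j, eval y (P i) * eval y' (P j) = eval y (P j) * eval y' (P i)) → y = y'

end Pool.Agent.E6s
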