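import Pool.Agent.E6s.St
import Pool.Agent.E6s.VDefs

set_option autoImplicit false

namespace Pool.Agent.E6s

open MvPolynomial

theorem s_ff : SFF := by
  classical
  intro K Ω ι _ _ _ J g hg
  obtain ⟨r, hr⟩ := (Algebra.linearMap K Ω).exists_leftInverse_of_injective
    (LinearMap.ker_eq_bot.2 (algebraMap K Ω).injective)
  have hr1 : ∀ c : K, r (algebraMap K Ω c) = c := fun c => LinearMap.congr_fun hr c
  let R : MvPolynomial ι Ω → MvPolynomial ι K := fun h =>
    ∑ m ∈ h.support, monomial m (r (coeff m h))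
  have hR : ∀ h m, coeff m (R h) = r (coeff m h) := fun h m => by
    simp only [R, coeff_sum, coeff_monomial, Finset.sum_ite_eq']
    split_ifs with e
    · rfl
    · rw [notMem_support_iff.1 e, map_zero]
  have key : ∀ h, R (h * MvPolynomial.map (algebraMap K Ω) g) ∈ J := by
    refine Submodule.span_induction (p := fun q _ => ∀ h, R (h * q) ∈ J) ?_ ?_ ?_ ?_ hg
    · rintro _ ⟨f, hf, rfl⟩ h
      have e : R (h * MvPolynomial.map (algebraMap K Ω) f) = R h * f := by
        ext m
        rw [hR, coeff_mul, coeff_mul, map_sum]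
        refine Finset.sum_congr rfl fun x _ => ?_
        rw [hR, coeff_map, mul_comm, ← Algebra.smul_def, map_smul, smul_eq_mul, mul_comm]
      rw [e]
      exact J.mul_mem_left _ hf
    · intro h
      have e : R (h * 0) = 0 := by
        ext m
        rw [hR, mul_zero, coeff_zero, coeff_zero, map_zero]
      rw [e]
      exact J.zero_mem
    · intro a b _ _ ha hb h
      have e : R (h * (a + b)) = R (h * a) + R (h * b) := by
        ext m
        rw [coeff_add, hR, hR, hR, mul_add, coeff_add, map_add]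
      rw [e]
      exact J.add_mem (ha h) (hb h)
    · intro a b _ hb h
      rw [smul_eq_mul, ← mul_assoc]
      exact hb _
  have e : R (1 * MvPolynomial.map (algebraMap K Ω) g) = g := by
    ext m
    rw [hR, one_mul, coeff_map, hr1]
  exact e ▸ key 1

theorem map_map_Gal {k K Ω ι : Type} [Field k] [Field K] [Field Ω] (f : k →+* K) (g : K →+* Ω)
    (I : Ideal (MvPolynomial ι k)) :
    (I.map (MvPolynomial.map f)).map (MvPolynomial.map g) = I.map (MvPolynomial.map (g.comp f)) := by
  rw [Ideal.map_map]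
  congr 1
  exact RingHom.ext fun p => MvPolynomial.map_map f g p

variable {k : Type} [Field k] (X : ProjVar k)

theorem prime_cl (Ω : Type) [Field Ω] [Algebra k Ω] [IsAlgClosure k Ω] :
    (X.I.map (MvPolynomial.map (algebraMap k Ω))).IsPrime := by
  let e : AlgebraicClosure k ≃ₐ[k] Ω := IsAlgClosure.equiv k _ _
  have h := X.geomPrime
  have h1 : (e : AlgebraicClosure k →+* Ω).comp (algebraMap k _) = algebraMap k Ω :=
    RingHom.ext fun c => e.commutes c
  rw [← h1, ← map_map_Gal]
  refine Ideal.map_isPrime_of_surjective (MvPolynomial.map_surjective _ e.surjective) ?_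
  rw [(RingHom.injective_iff_ker_eq_bot _).1 (MvPolynomial.map_injective _ e.injective)]
  exact bot_le

theorem mem_ext (K Ω : Type) [Field K] [Field Ω] [Algebra k K] [Algebra K Ω] [Algebra k Ω]
    [IsScalarTower k K Ω] (g : MvPolynomial (Fin (X.n + 1)) K) :
    MvPolynomial.map (algebraMap K Ω) g ∈ X.I.map (MvPolynomial.map (algebraMap k Ω)) ↔
      g ∈ X.I.map (MvPolynomial.map (algebraMap k K)) := by
  rw [IsScalarTower.algebraMap_eq k K Ω, ← map_map_Gal]
  exact ⟨s_ff K Ω _ _ g, Ideal.mem_map_of_mem _⟩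

theorem isAlgClosure_Gal (k K : Type) [Field k] [Field K] [Algebra k K] [Algebra.IsAlgebraic k K] :
    IsAlgClosure k (AlgebraicClosure K) :=
  ⟨inferInstance, Algebra.IsAlgebraic.trans k K _⟩

theorem prime_ext (K : Type) [Field K] [Algebra k K] [Algebra.IsAlgebraic k K] :
    (X.I.map (MvPolynomial.map (algebraMap k K))).IsPrime := by
  have := isAlgClosure_Gal k K
  have h := prime_cl X (AlgebraicClosure K)
  have e : X.I.map (MvPolynomial.map (algebraMap k K)) =
      (X.I.map (MvPolynomial.map (algebraMap k (AlgebraicClosure K)))).comap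
        (MvPolynomial.map (algebraMap K (AlgebraicClosure K))) :=
    Ideal.ext fun g => (mem_ext X K _ g).symm
  rw [e]
  exact Ideal.comap_isPrime _ _

/-- The field generated by the ratios of the coordinates. -/
noncomputable def rf (K : Type) [Field K] {Ω ι : Type} [Field Ω] [Algebra K Ω] (x : ι → Ω) :
    IntermediateField K Ω :=
  IntermediateField.adjoin K {r | ∃ i j, r = x i / x j}

theorem fix_adjoin {K Ω : Type} [Field K] [Field Ω] [Algebra K Ω] (σ : Ω →+* Ω) (S : Set Ω)
    (h0 : ∀ c, σ (algebraMap K Ω c) = algebraMap K Ω c) (h : ∀ r ∈ S, σ r = r) {y : Ω}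
    (hy : y ∈ IntermediateField.adjoin K S) : σ y = y := by
  induction hy using IntermediateField.adjoin_induction with
  | mem r hr => exact h r hr
  | algebraMap c => exact h0 c
  | add a b _ _ ha hb => rw [map_add, ha, hb]
  | inv a _ ha => rw [map_inv₀, ha]
  | mul a b _ _ ha hb => rw [map_mul, ha, hb]

theorem mem_fix {K Ω ι : Type} [Field K] [Field Ω] [Algebra K Ω] (x : ι → Ω) (σ : Ω ≃ₐ[K] Ω) :
    σ ∈ (rf K x).fixingSubgroup ↔ ∀ i j, σ (x i / x j) = x i / x j := by
  rw [IntermediateField.mem_fixingSubgroup_iff]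
  refine ⟨fun h i j => h _ (IntermediateField.subset_adjoin _ _ ⟨i, j, rfl⟩), fun h y hy => ?_⟩
  refine fix_adjoin (σ : Ω →+* Ω) _ σ.commutes ?_ hy
  rintro _ ⟨i, j, rfl⟩
  exact h i j

/-- Restriction of scalars as a homomorphism. -/
def resH (k K Ω : Type) [Field k] [Field K] [Field Ω] [Algebra k K] [Algebra K Ω] [Algebra k Ω]
    [IsScalarTower k K Ω] : (Ω ≃ₐ[K] Ω) →* (Ω ≃ₐ[k] Ω) where
  toFun σ := σ.restrictScalars k
  map_one' := rfl
  map_mul' _ _ := rfl

/-- A conjugate point whose degree over the extension divides the degree. -/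
theorem split (hG : SGrp) {K L Ω ι : Type} [Field K] [Field L] [Algebra k L]
    [FiniteDimensional k L] [IsGalois k L] [Algebra k K] [Algebra K L] (H : Subgroup (L ≃ₐ[k] L))
    (hH : ∀ σ, σ ∈ H ↔ ∀ c, σ (algebraMap K L c) = algebraMap K L c)
    (hs : Group.IsSolvable (Subgroup.normalClosure (H : Set (L ≃ₐ[k] L))))
    [Field Ω] [Algebra k Ω] [Algebra L Ω] [Algebra K Ω] [IsScalarTower k L Ω]
    [IsScalarTower k K Ω] [IsScalarTower K L Ω] [IsGalois k Ω] (x : ι → Ω) :
    ∃ σ : Ω ≃ₐ[k] Ω,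
      Module.finrank K (rf K fun i => σ (x i)) ∣ Module.finrank k (rf k x) := by
  have : IsGalois K Ω := IsGalois.tower_top_of_isGalois k K Ω
  obtain ⟨g, hg⟩ := hG _ _ (AlgEquiv.restrictNormalHom L) (AlgEquiv.restrictNormalHom_surjective Ω)
    H hs (rf k x).fixingSubgroup
  refine ⟨g, ?_⟩
  rw [IntermediateField.finrank_eq_fixingSubgroup_index,
    IntermediateField.finrank_eq_fixingSubgroup_index]
  have e1 : (rf K fun i => g (x i)).fixingSubgroup =
      ((rf k x).fixingSubgroup.map (MulAut.conj g).toMonoidHom).comap (resH k K Ω) := by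
    ext σ
    rw [mem_fix, Subgroup.mem_comap, Subgroup.mem_map_equiv, mem_fix]
    refine forall_congr' fun i => forall_congr' fun j => ?_
    rw [← map_div₀, MulAut.conj_symm_apply, AlgEquiv.mul_apply, AlgEquiv.mul_apply]
    exact (g.symm_apply_eq).symm
  have e2 : (resH k K Ω).range = H.comap (AlgEquiv.restrictNormalHom L) := by
    ext σ
    rw [Subgroup.mem_comap, hH]
    have h1 : ∀ c : L, algebraMap L Ω (AlgEquiv.restrictNormalHom L σ c) = σ (algebraMap L Ω c) :=
      fun c => AlgEquiv.restrictNormal_commutes σ L c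
    constructor
    · rintro ⟨τ, rfl⟩ c
      apply (algebraMap L Ω).injective
      rw [h1, ← IsScalarTower.algebraMap_apply]
      exact τ.commutes c
    · intro h
      refine ⟨AlgEquiv.ofRingEquiv (f := σ.toRingEquiv) fun c => ?_, rfl⟩
      rw [IsScalarTower.algebraMap_apply K L Ω]
      exact (h1 _).symm.trans (congrArg _ (h c))
  rw [e1, Subgroup.index_comap, e2]
  exact hg

theorem finrank_rf_equiv {Ω Ω' ι : Type} [Field Ω] [Field Ω'] [Algebra k Ω] [Algebra k Ω']
    (e : Ω ≃ₐ[k] Ω') (x : ι → Ω) :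
    Module.finrank k (rf k fun i => e (x i)) = Module.finrank k (rf k x) := by
  have h : (rf k fun i => e (x i)) = (rf k x).map (e : Ω →ₐ[k] Ω') := by
    rw [rf, rf, IntermediateField.adjoin_map]
    congr 1
    ext r
    constructor
    · rintro ⟨i, j, rfl⟩
      exact ⟨_, ⟨i, j, rfl⟩, map_div₀ e _ _⟩
    · rintro ⟨_, ⟨i, j, rfl⟩, rfl⟩
      exact ⟨i, j, map_div₀ e _ _⟩
  rw [h]
  exact ((rf k x).equivMap (e : Ω →ₐ[k] Ω')).toLinearEquiv.finrank_eq.symm

theorem aeval_comp_Gal {Ω Ω' ι : Type} [Field Ω] [Field Ω'] [Algebra k Ω] [Algebra k Ω']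
    (e : Ω ≃ₐ[k] Ω') (x : ι → Ω) (f : MvPolynomial ι k) :
    aeval (fun i => e (x i)) f = e (aeval x f) :=
  (comp_aeval_apply x (e : Ω →ₐ[k] Ω') f).symm

/-- The norm of a form. -/
theorem exists_norm [CharZero k] {K Ω : Type} [Field K] [Algebra k K] [FiniteDimensional k K]
    [Field Ω] [Algebra k Ω] [Algebra K Ω] [IsScalarTower k K Ω] [IsAlgClosure k Ω] {m : ℕ}
    {g : MvPolynomial (Fin (X.n + 1)) K} (hg : g.IsHomogeneous m)
    (hI : g ∉ X.I.map (MvPolynomial.map (algebraMap k K))) :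
    ∃ (m' : ℕ) (G : MvPolynomial (Fin (X.n + 1)) k), G.IsHomogeneous m' ∧
      G ∉ X.I.map (MvPolynomial.map (algebraMap k k)) ∧
      ∀ (y : Fin (X.n + 1) → Ω) (σ : Ω ≃ₐ[k] Ω), aeval (fun i => σ (y i)) g = 0 →
        aeval y G = 0 := by
  classical
  have hgal : IsGalois k Ω := {}
  have hp := prime_cl X Ω
  let G := ∏ τ : K →ₐ[k] Ω, MvPolynomial.map (τ : K →+* Ω) g
  have hfix : ∀ σ : Ω ≃ₐ[k] Ω, MvPolynomial.map (σ : Ω →+* Ω) G = G := fun σ => by
    rw [map_prod]
    refine Fintype.prod_equiv (AlgEquiv.arrowCongr AlgEquiv.refl σ) _ _ fun τ => ?_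
    rw [MvPolynomial.map_map]
    rfl
  obtain ⟨G₀, hG₀⟩ : G ∈ Set.range (MvPolynomial.map (algebraMap k Ω)) := by
    rw [mem_range_map_iff_coeffs_subset]
    intro c hc
    obtain ⟨d, -, rfl⟩ := mem_coeffs_iff.1 hc
    refine IntermediateField.mem_bot.1 ((InfiniteGalois.mem_bot_iff_fixed _).2 fun σ => ?_)
    conv_rhs => rw [← hfix σ, coeff_map]
    rfl
  have hh : G.IsHomogeneous (∑ _τ : K →ₐ[k] Ω, m) :=
    IsHomogeneous.prod _ _ _ fun τ _ => hg.map _
  refine ⟨_, G₀, IsHomogeneous.of_map (algebraMap k Ω).injective (hG₀ ▸ hh), fun h => ?_,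
    fun y σ h => ?_⟩
  · rw [← mem_ext X k Ω, hG₀] at h
    obtain ⟨τ, -, hτ⟩ := Ideal.IsPrime.prod_mem_iff.1 h
    let s : Ω ≃ₐ[k] Ω := AlgEquiv.ofBijective (τ.liftNormal Ω) (AlgHom.normal_bijective k Ω Ω _)
    have h1 := Ideal.mem_map_of_mem (MvPolynomial.map (s.symm : Ω →+* Ω)) hτ
    rw [map_map_Gal, MvPolynomial.map_map] at h1
    have e1 : (s.symm : Ω →+* Ω).comp (algebraMap k Ω) = algebraMap k Ω :=
      RingHom.ext fun c => s.symm.commutes c
    have e2 : (s.symm : Ω →+* Ω).comp (τ : K →+* Ω) = algebraMap K Ω :=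
      RingHom.ext fun c => s.symm_apply_eq.2 (τ.liftNormal_commutes Ω c).symm
    rw [e1, e2] at h1
    exact hI ((mem_ext X K Ω g).1 h1)
  · rw [aeval_def, eval₂_eq_eval_map, hG₀, map_prod]
    refine Finset.prod_eq_zero (Finset.mem_univ
      ((σ.symm : Ω →ₐ[k] Ω).comp (IsScalarTower.toAlgHom k K Ω))) ?_
    apply σ.injective
    rw [map_zero, ← h, aeval_def, eval₂_eq_eval_map]
    refine (map_eval (σ : Ω →+* Ω) y _).trans ?_
    rw [MvPolynomial.map_map]
    congr 2
    exact congrArg _ (RingHom.ext fun c => σ.apply_symm_apply _)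

/-- Every density degree has a divisor which is a density degree over the extension. -/
theorem divisor (hG : SGrp) [CharZero k] {K L : Type} [Field K] [Field L] [Algebra k L]
    [FiniteDimensional k L] [IsGalois k L] [Algebra k K] [Algebra K L] [IsScalarTower k K L]
    (H : Subgroup (L ≃ₐ[k] L)) (hH : ∀ σ, σ ∈ H ↔ ∀ c, σ (algebraMap K L c) = algebraMap K L c)
    (hs : Group.IsSolvable (Subgroup.normalClosure (H : Set (L ≃ₐ[k] L)))) {d : ℕ}
    (hd : d ∈ X.delta k) : ∃ e ∈ X.delta K, e ∣ d := by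
  have : FiniteDimensional k K := FiniteDimensional.left k K L
  have : FiniteDimensional K L := FiniteDimensional.right k K L
  have := isAlgClosure_Gal k K
  have hgal : IsGalois k (AlgebraicClosure K) := {}
  let ι : L →ₐ[K] AlgebraicClosure K := IsAlgClosed.lift
  let _ : Algebra L (AlgebraicClosure K) := (ι : L →+* AlgebraicClosure K).toAlgebra
  have : IsScalarTower K L (AlgebraicClosure K) :=
    IsScalarTower.of_algebraMap_eq fun c => (ι.commutes c).symm
  have : IsScalarTower k L (AlgebraicClosure K) := IsScalarTower.of_algebraMap_eq fun c => by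
    rw [IsScalarTower.algebraMap_apply k K L, ← IsScalarTower.algebraMap_apply,
      ← IsScalarTower.algebraMap_apply]
  by_contra hn
  have h1 : ∀ e : d.divisors, ∃ (m : ℕ) (g : MvPolynomial (Fin (X.n + 1)) K), g.IsHomogeneous m ∧
      (∀ x ∈ X.pts K e, aeval x g = 0) ∧
        g ∉ X.I.map (MvPolynomial.map (algebraMap k K)) := fun e => by
    by_contra h
    refine hn ⟨e, ⟨Nat.pos_of_mem_divisors e.2, fun m g h1 h2 => ?_⟩, Nat.dvd_of_mem_divisors e.2⟩
    by_contra h3
    exact h ⟨m, g, h1, h2, h3⟩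
  choose m g g1 g2 g3 using h1
  have hp := prime_ext X K
  obtain ⟨m', G, G1, G2, G3⟩ := exists_norm X (Ω := AlgebraicClosure K)
    (IsHomogeneous.prod Finset.univ g m fun e _ => g1 e) fun h => by
      obtain ⟨e, -, he⟩ := Ideal.IsPrime.prod_mem_iff.1 h
      exact g3 e he
  refine G2 (hd.2 m' G G1 fun x hx => ?_)
  let e : AlgebraicClosure k ≃ₐ[k] AlgebraicClosure K := IsAlgClosure.equiv k _ _
  obtain ⟨σ, hσ⟩ := split hG H hH hs fun i => e (x i)
  rw [finrank_rf_equiv, show Module.finrank k (rf k x) = d from hx.2.2] at hσ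
  apply e.injective
  rw [map_zero, ← aeval_comp_Gal]
  refine G3 _ σ ?_
  rw [map_prod]
  refine Finset.prod_eq_zero (Finset.mem_univ ⟨_, Nat.mem_divisors.2 ⟨hσ, by
    have := hd.1
    omega⟩⟩) (g2 _ _ ⟨fun h => hx.1 (funext fun i => ?_), fun f hf => ?_, rfl⟩)
  · simpa using congrFun h i
  · rw [aeval_comp_Gal, aeval_comp_Gal, hx.2.1 f hf, map_zero, map_zero]

end Pool.Agent.E6s
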