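import Pool.Agent.E6s.St2

set_option autoImplicit false

namespace Pool.Agent.E6s

open MvPolynomial

theorem prim_Grid (K L Ω : Type) [Field K] [NumberField K] [Field L] [Algebra K L]
    [FiniteDimensional K L] [Field Ω] [Algebra K Ω] :
    ∃ θ : L, IsIntegral ℤ θ ∧ ∀ τ τ' : L →ₐ[K] Ω, τ θ = τ' θ → τ = τ' := by
  have : NumberField L := NumberField.of_module_finite K L
  have : CharZero Ω := charZero_of_injective_algebraMap (algebraMap K Ω).injective
  obtain ⟨θ, hθ⟩ := Field.exists_primitive_element K L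
  have ha : IsAlgebraic ℤ θ :=
    (IsFractionRing.isAlgebraic_iff ℤ ℚ L).2 (Algebra.IsAlgebraic.isAlgebraic θ)
  obtain ⟨n, hn, hi⟩ := ha.exists_integral_multiple
  refine ⟨n • θ, hi, fun τ τ' e => ?_⟩
  rw [map_zsmul, map_zsmul, zsmul_eq_mul, zsmul_eq_mul] at e
  have e' := mul_left_cancel₀ (Int.cast_ne_zero.2 hn) e
  ext x
  have hx : x ∈ IntermediateField.adjoin K {θ} := hθ ▸ IntermediateField.mem_top
  induction hx using IntermediateField.adjoin_induction with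
  | mem x hx => rwa [hx]
  | algebraMap x => rw [AlgHom.commutes, AlgHom.commutes]
  | add x y _ _ h1 h2 => rw [map_add, map_add, h1, h2]
  | inv x _ h1 => rw [map_inv₀, map_inv₀, h1]
  | mul x y _ _ h1 h2 => rw [map_mul, map_mul, h1, h2]

theorem eval_Grid {Ω : Type} [Field Ω] (x : Fin 2 → Ω) (p q R : MvPolynomial (Fin 2) Ω) :
    eval x (aeval ![p, q] R) = eval ![eval x p, eval x q] R := by
  rw [aeval_eq_bind₁, show eval x (bind₁ ![p, q] R) = eval (fun i => eval x (![p, q] i)) R from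
    eval₂Hom_bind₁ _ _ _ _]
  refine congrArg (fun y => eval y R) (funext fun i => ?_)
  fin_cases i <;> rfl

theorem s_grid : SGrid := by
  intro K L Ω _ _ _ _ _ _ _ τ₀ R hR a c hc T hT
  classical
  have : CharZero Ω := charZero_of_injective_algebraMap (algebraMap K Ω).injective
  obtain ⟨θ, hθ, hτ⟩ := prim_Grid K L Ω
  have hc' : (c : Ω) ≠ 0 := Nat.cast_ne_zero.2 hc.ne'
  obtain ⟨l, hl⟩ : ∃ l : (L →ₐ[K] Ω) → MvPolynomial (Fin 2) Ω,
      ∀ τ x, eval x (l τ) = τ a + c * (x 0 + x 1 * τ θ) :=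
    ⟨fun τ => C (τ a) + C (c : Ω) * (X 0 + X 1 * C (τ θ)), fun τ x => by simp⟩
  have h1 : ∀ τ, τ ≠ τ₀ → aeval ![l τ₀, l τ] (R τ) ≠ 0 := fun τ hne h0 => by
    have hd : τ θ - τ₀ θ ≠ 0 := sub_ne_zero.2 fun e => hne (hτ _ _ e)
    refine hR τ (MvPolynomial.funext fun y => ?_)
    have e := congrArg (eval ![(y 0 - τ₀ a) / c -
      ((y 1 - τ a) - (y 0 - τ₀ a)) / c / (τ θ - τ₀ θ) * τ₀ θ,
      ((y 1 - τ a) - (y 0 - τ₀ a)) / c / (τ θ - τ₀ θ)]) h0
    rw [eval_Grid, hl, hl] at e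
    rw [map_zero] at e ⊢
    refine (congrArg (fun y => eval y (R τ)) (funext fun i => ?_)).trans e
    fin_cases i
    · simp
      field_simp
      ring
    · simp
      field_simp
      ring
  have h2 : ∀ t : Ω, l τ₀ - C t ≠ 0 := fun t h0 => by
    have e0 := congrArg (eval ![0, 0]) h0
    have e1 := congrArg (eval ![1, 0]) h0
    rw [map_sub, hl, eval_C, map_zero] at e0 e1
    simp at e0 e1
    exact hc' (by linear_combination e1 - e0)
  have h3 : (∏ τ ∈ Finset.univ.erase τ₀, aeval ![l τ₀, l τ] (R τ)) *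
      ∏ t ∈ hT.toFinset, (l τ₀ - C t) ≠ 0 :=
    mul_ne_zero (Finset.prod_ne_zero_iff.2 fun τ h => h1 τ (Finset.ne_of_mem_erase h))
      (Finset.prod_ne_zero_iff.2 fun t _ => h2 t)
  obtain ⟨x, hx, h4⟩ : ∃ x ∈ Set.pi Set.univ fun _ : Fin 2 => Set.range (Int.cast : ℤ → Ω),
      eval x ((∏ τ ∈ Finset.univ.erase τ₀, aeval ![l τ₀, l τ] (R τ)) *
        ∏ t ∈ hT.toFinset, (l τ₀ - C t)) ≠ 0 := by
    by_contra hn
    push Not at hn
    exact h3 (MvPolynomial.funext_set _ (fun _ => Set.infinite_range_of_injective Int.cast_injective)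
      fun x hx => by rw [hn x hx, map_zero])
  obtain ⟨i, hi⟩ := hx 0 trivial
  obtain ⟨j, hj⟩ := hx 1 trivial
  have h5 : ∀ τ : L →ₐ[K] Ω, τ (a + c * (i + j * θ)) = eval x (l τ) := fun τ => by
    rw [hl, ← hi, ← hj]
    simp
  rw [map_mul, map_prod, map_prod, mul_ne_zero_iff, Finset.prod_ne_zero_iff,
    Finset.prod_ne_zero_iff] at h4
  refine ⟨i + j * θ, (isIntegral_algebraMap (x := i)).add ((isIntegral_algebraMap (x := j)).mul hθ),
    fun ht => h4.2 _ (hT.mem_toFinset.2 ht) ?_, fun τ hne => ?_⟩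
  · rw [map_sub, eval_C, h5, sub_self]
  · rw [h5, h5, ← eval_Grid]
    exact h4.1 τ (Finset.mem_erase.2 ⟨hne, Finset.mem_univ _⟩)

end Pool.Agent.E6s
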