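import Pool.Agent.E6s.St

set_option autoImplicit false

namespace Pool.Agent.E6s

open Subgroup

/-- conjugate subgroup -/
abbrev cj_Grp {G : Type} [Group G] (U : Subgroup G) (g : G) : Subgroup G :=
  U.map (MulAut.conj g).toMonoidHom

theorem q1_Grp {Γ G : Type} [Group Γ] [Group G] (ρ : Γ →* G) (H U : Subgroup Γ) :
    U.relIndex H = U.relIndex ((U ⊔ ρ.ker) ⊓ H) * (U.map ρ).relIndex (H.map ρ) := by
  rw [← relIndex_comap, comap_map_eq, relIndex_inf_mul_relIndex, inf_eq_left.2 le_sup_left]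

theorem q2_Grp {Γ G : Type} [Group Γ] [Group G] (ρ : Γ →* G) (h : Function.Surjective ρ)
    (U : Subgroup Γ) : U.index = U.relIndex (U ⊔ ρ.ker) * (U.map ρ).index := by
  rw [← index_comap_of_surjective _ h, comap_map_eq, relIndex_mul_index le_sup_left]

theorem ix_Grp {G : Type} [Group G] (U : Subgroup G) (g : G) : (cj_Grp U g).index = U.index :=
  index_map_of_bijective (MulAut.conj g).bijective U

theorem mp_Grp {Γ G : Type} [Group Γ] [Group G] (ρ : Γ →* G) (U : Subgroup Γ) (g : Γ) :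
    (cj_Grp U g).map ρ = cj_Grp (U.map ρ) (ρ g) := by
  rw [map_map, cj_Grp, map_map]
  congr 1
  ext x
  simp

theorem cc_Grp {G : Type} [Group G] (U : Subgroup G) (g h : G) :
    cj_Grp (cj_Grp U g) h = cj_Grp U (h * g) := by
  rw [cj_Grp, map_map]
  congr 1
  ext x
  simp [mul_assoc]

theorem c1_Grp {G : Type} [Group G] (U : Subgroup G) : cj_Grp U 1 = U := by
  ext x
  simp

theorem s_solv (hV : SV) (hH : SHall) (hA : SAvg) (hR : SRel) : SSolv := by
  intro G _ _ _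
  induction hn : Nat.card G using Nat.strong_induction_on generalizing G with
  | _ n ih =>
  intro H U
  rcases subsingleton_or_nontrivial G with hG | hG
  · exact ⟨1, by rw [Subsingleton.elim (U.map _) ⊤, relIndex_top_left]; exact one_dvd _⟩
  obtain ⟨p, V, hp, _, V0, pV, cV⟩ := hV G
  have := Fact.mk hp
  obtain ⟨e, he⟩ := IsPGroup.iff_card.1 pV
  have hs := QuotientGroup.mk'_surjective V
  obtain ⟨gb, hg⟩ := ih _ (by
    rw [← hn, card_eq_card_quotient_mul_card_subgroup V]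
    exact lt_mul_of_one_lt_right Nat.card_pos (one_lt_card_iff_ne_bot V |>.2 V0))
    (G ⧸ V) rfl (H.map (QuotientGroup.mk' V)) (U.map (QuotientGroup.mk' V))
  obtain ⟨g, rfl⟩ := hs gb
  obtain ⟨Q, hQ, b, hb⟩ := hH ↥((cj_Grp U g ⊔ V) ⊓ H) p hp
  obtain ⟨v, hv, hQU⟩ := hA G V (cj_Grp U g) (Q.map (Subgroup.subtype _)) ‹_› cV
    (by rw [card_map_of_injective (subtype_injective _), he]; exact hQ.pow_right e)
    ((map_subtype_le Q).trans inf_le_left)
  have m2 : (cj_Grp U (v * g)).map (QuotientGroup.mk' V) =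
      cj_Grp (U.map (QuotientGroup.mk' V)) (QuotientGroup.mk' V g) := by
    rw [mp_Grp, map_mul, show QuotientGroup.mk' V v = 1 from (QuotientGroup.eq_one_iff v).2 hv,
      one_mul]
  have s2 : cj_Grp U (v * g) ⊔ V = cj_Grp U g ⊔ V := by
    have := congrArg (comap (QuotientGroup.mk' V)) (m2.trans (mp_Grp _ U g).symm)
    rwa [comap_map_eq, comap_map_eq, QuotientGroup.ker_mk'] at this
  refine ⟨v * g, ?_⟩
  change (cj_Grp U (v * g)).relIndex H ∣ _
  rw [← ix_Grp U (v * g), q1_Grp (QuotientGroup.mk' V), q2_Grp _ hs, m2, ix_Grp,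
    QuotientGroup.ker_mk']
  refine mul_dvd_mul ?_ hg
  have d1 : (cj_Grp U (v * g)).relIndex ((cj_Grp U (v * g) ⊔ V) ⊓ H) ∣ p ^ b := by
    rw [s2, ← hb, ← cc_Grp]
    refine (relIndex_dvd_of_le_left _ hQU).trans (dvd_of_eq ?_)
    rw [relIndex, subgroupOf, comap_map_eq_self_of_injective (subtype_injective _)]
  have d2 : (cj_Grp U (v * g)).relIndex (cj_Grp U (v * g) ⊔ V) ∣ p ^ e := by
    rw [hR G V _ _ ‹_› le_sup_right le_rfl, ← he]
    exact relIndex_dvd_card _ _
  have le := relIndex_le_of_le_right (H := cj_Grp U (v * g))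
    (inf_le_left : (cj_Grp U (v * g) ⊔ V) ⊓ H ≤ _) (index_ne_zero_of_finite)
  obtain ⟨c, -, hc⟩ := (Nat.dvd_prime_pow hp).1 d1
  obtain ⟨a, -, ha⟩ := (Nat.dvd_prime_pow hp).1 d2
  rw [hc, ha] at le ⊢
  exact pow_dvd_pow p ((Nat.pow_le_pow_iff_right hp.one_lt).1 le)

theorem s_grp (hS : SSolv) (hR : SRel) : SGrp := by
  intro Γ G _ _ _ ρ hρ H hsol U
  obtain ⟨n, hn⟩ := hS (normalClosure (H : Set G)) (H.subgroupOf _) ((U.map ρ).subgroupOf _)
  obtain ⟨g, hg⟩ := hρ n
  have e : ((U.map ρ).subgroupOf (normalClosure (H : Set G))).map (MulAut.conj n).toMonoidHom =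
      (cj_Grp (U.map ρ) n).subgroupOf _ := by
    ext x
    simp only [mem_map_equiv, mem_subgroupOf, cj_Grp]
    rfl
  rw [e, relIndex_subgroupOf le_normalClosure] at hn
  refine ⟨g, ?_⟩
  change (cj_Grp U g).relIndex _ ∣ _
  rw [← ix_Grp U g, q1_Grp ρ, q2_Grp ρ hρ, mp_Grp, ix_Grp, map_comap_eq_self_of_surjective hρ, hg,
    hR Γ ρ.ker _ _ inferInstance (le_inf le_sup_right (ker_le_comap _ _)) inf_le_left,
    hR Γ ρ.ker _ _ inferInstance le_sup_right le_rfl]
  refine mul_dvd_mul_left _ (hn.trans ?_)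
  change (U.map ρ).relIndex _ ∣ _
  rw [← hR G _ _ _ inferInstance le_sup_right le_rfl]
  exact relIndex_dvd_index_of_le le_sup_left

end Pool.Agent.E6s
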