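import Pool.Agent.E6s.St

/- Abelian normal subgroups and complements of Sylow subgroups in finite solvable groups. -/

set_option autoImplicit false

namespace Pool.Agent.E6s

theorem ab_Hall (G : Type) [Group G] [Group.IsSolvable G] [Nontrivial G] :
    ∃ D : Subgroup G, D.Normal ∧ D ≠ ⊥ ∧ ∀ a ∈ D, ∀ b ∈ D, a * b = b * a := by
  classical
  have h := (Group.isSolvable_def G).1 inferInstance
  obtain ⟨n, hn⟩ : ∃ n, Nat.find h = n + 1 := Nat.exists_eq_succ_of_ne_zero fun e => by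
    have := Nat.find_spec h
    rw [e, derivedSeries_zero] at this
    exact top_ne_bot this
  refine ⟨derivedSeries G n, derivedSeries_normal G n, Nat.find_min h (by omega),
    fun a ha b hb => ?_⟩
  have h1 := Nat.find_spec h
  rw [hn, derivedSeries_succ] at h1
  have h2 := Subgroup.commutator_mem_commutator ha hb
  rw [h1, Subgroup.mem_bot] at h2
  exact commutatorElement_eq_one_iff_mul_comm.1 h2

theorem s_V : SV := by
  intro G _ _ _ _
  obtain ⟨D, hN, h0, hc⟩ := ab_Hall G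
  have h1 : Nat.card D ≠ 1 := fun e => h0 (Subgroup.card_eq_one.1 e)
  obtain ⟨p, hp, hd⟩ := Nat.exists_prime_and_dvd h1
  have : Fact p.Prime := ⟨hp⟩
  obtain ⟨x, hx⟩ := exists_prime_orderOf_dvd_card' p hd
  let V : Subgroup G :=
    { carrier := {x | x ∈ D ∧ x ^ p = 1}
      one_mem' := ⟨one_mem D, one_pow p⟩
      mul_mem' := fun {a b} ha hb => ⟨mul_mem ha.1 hb.1, by
        rw [Commute.mul_pow (hc a ha.1 b hb.1), ha.2, hb.2, one_mul]⟩
      inv_mem' := fun {a} ha => ⟨inv_mem ha.1, by rw [inv_pow, ha.2, inv_one]⟩ }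
  refine ⟨p, V, hp, ⟨fun a ha g => ⟨hN.conj_mem a ha.1 g, by
    rw [conj_pow, ha.2, mul_one, mul_inv_cancel]⟩⟩, fun e => ?_,
    fun a => ⟨1, Subtype.ext (by simpa using a.2.2)⟩, fun a ha b hb => hc a ha.1 b hb.1⟩
  have h2 : (x : G) ∈ V := ⟨x.2, by rw [← hx, ← Subgroup.coe_pow, pow_orderOf_eq_one]; rfl⟩
  rw [e, Subgroup.mem_bot, OneMemClass.coe_eq_one, ← orderOf_eq_one_iff, hx] at h2
  exact hp.ne_one h2

theorem aux_Hall (p : ℕ) (hp : p.Prime) (n : ℕ) : ∀ (G : Type) [Group G] [Finite G]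
    [Group.IsSolvable G], Nat.card G = n →
      ∃ Q : Subgroup G, (Nat.card Q).Coprime p ∧ ∃ b, Q.index = p ^ b := by
  induction n using Nat.strong_induction_on with | h n ih => ?_
  intro G _ _ _ hn
  rcases subsingleton_or_nontrivial G with hG | hG
  · exact ⟨⊤, by rw [Nat.card_unique]; exact Nat.coprime_one_left p, 0, by simp⟩
  obtain ⟨q, V, hq, hN, h0, hV, -⟩ := s_V G
  have : Fact q.Prime := ⟨hq⟩
  obtain ⟨e, he⟩ := IsPGroup.iff_card.1 hV
  have h1 := V.card_eq_card_quotient_mul_card_subgroup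
  have h2 : 1 < Nat.card V := (Subgroup.one_lt_card_iff_ne_bot V).2 h0
  obtain ⟨Q, c1, b, hb⟩ := ih (Nat.card (G ⧸ V))
    (by rw [← hn, h1]; exact lt_mul_of_one_lt_right Nat.card_pos h2) (G ⧸ V) rfl
  obtain ⟨R, r1, r2⟩ : ∃ R : Subgroup G, V ≤ R ∧ R.index = p ^ b :=
    ⟨Q.comap (QuotientGroup.mk' V), QuotientGroup.le_comap_mk' V Q,
      (Q.index_comap_of_surjective (QuotientGroup.mk'_surjective V)).trans hb⟩
  have r3 : Nat.card R = Nat.card Q * Nat.card V := by
    refine Nat.eq_of_mul_eq_mul_right (pow_pos hp.pos b) ?_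
    rw [mul_right_comm, ← hb, Q.card_mul_index, hb, ← r2, R.card_mul_index, h1]
  by_cases hpq : q = p
  swap
  · refine ⟨R, ?_, b, r2⟩
    rw [r3, he]
    exact Nat.Coprime.mul_left c1 (Nat.Coprime.pow_left e ((Nat.coprime_primes hq hp).2 hpq))
  subst hpq
  have n1 : Nat.card (V.subgroupOf R) = Nat.card V :=
    Nat.card_congr (Subgroup.subgroupOfEquivOfLe r1).toEquiv
  have n2 : (V.subgroupOf R).index = Nat.card Q := by
    refine Nat.eq_of_mul_eq_mul_right (zero_lt_one.trans h2) ?_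
    rw [← r3, ← n1, Subgroup.index_mul_card]
  obtain ⟨C, hC⟩ := Subgroup.exists_right_complement'_of_coprime (N := V.subgroupOf R)
    (by rw [n1, n2, he]; exact c1.symm.pow_left e)
  refine ⟨C.map R.subtype, ?_, e + b, ?_⟩
  · rwa [Subgroup.card_subtype, ← hC.symm.index_eq_card, n2]
  · rw [Subgroup.index_map_subtype, hC.index_eq_card, n1, he, r2, pow_add]

theorem s_hall : SHall := fun G _ _ _ p hp => aux_Hall p hp _ G rfl

end Pool.Agent.E6s
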