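import Pool.Agent.E6s.St

set_option autoImplicit false

namespace Pool.Agent.E6s

open MvPolynomial

theorem int_Val {Ω Γ : Type} [Field Ω] [LinearOrderedCommGroupWithZero Γ] (v : Valuation Ω Γ)
    {x : Ω} (hx : IsIntegral ℤ x) : v x ≤ 1 :=
  (Valuation.integer.integers v).mem_of_integral hx.tower_top

theorem and_Val {Ω : Type} [Field Ω]
    {Φ Ψ Θ : ∀ (Γ : Type) [LinearOrderedCommGroupWithZero Γ], Valuation Ω Γ → Prop}
    (h1 : Ev Ω Φ) (h2 : Ev Ω Ψ)
    (h : ∀ (Γ : Type) [LinearOrderedCommGroupWithZero Γ] (v : Valuation Ω Γ),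
      Φ Γ v → Ψ Γ v → Θ Γ v) : Ev Ω Θ := by
  obtain ⟨N, hN⟩ := h1
  obtain ⟨M, hM⟩ := h2
  exact ⟨max N M, fun p hp hle Γ _ v hv => h Γ v (hN p hp (le_of_max_le_left hle) Γ v hv)
    (hM p hp (le_of_max_le_right hle) Γ v hv)⟩

theorem one_Val {Ω : Type} [Field Ω] [CharZero Ω] [Algebra.IsAlgebraic ℚ Ω] (α : Ω) :
    Ev Ω fun _ _ v => v α ≤ 1 := by
  have ha : IsAlgebraic ℤ α :=
    (IsFractionRing.isAlgebraic_iff ℤ ℚ Ω).2 (Algebra.IsAlgebraic.isAlgebraic α)
  obtain ⟨n, hn, hi⟩ := ha.exists_integral_multiple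
  refine ⟨n.natAbs + 1, fun p hp hle Γ _ v hv => ?_⟩
  have hz : ∀ m : ℤ, v (m : Ω) ≤ 1 := fun m => int_Val v (isIntegral_algebraMap (x := m))
  have hc : IsCoprime (p : ℤ) n := by
    rw [Int.isCoprime_iff_gcd_eq_one, Int.gcd_eq_natAbs, Int.natAbs_natCast]
    exact hp.coprime_iff_not_dvd.2 fun hd =>
      absurd (Nat.le_of_dvd (Int.natAbs_pos.2 hn) hd) (by omega)
  obtain ⟨a, b, hab⟩ := hc
  have h1 : v (n : Ω) = 1 := by
    refine le_antisymm (hz n) (not_lt.1 fun hlt => ?_)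
    have e : (a : Ω) * p + b * n = 1 := by exact_mod_cast hab
    have := v.map_add_lt (g := 1) (x := (a : Ω) * p) (y := (b : Ω) * n)
      (by rw [map_mul]; exact mul_lt_one_of_nonneg_of_lt_one_right (hz a) zero_le hv)
      (by rw [map_mul]; exact mul_lt_one_of_nonneg_of_lt_one_right (hz b) zero_le hlt)
    rw [e, map_one] at this
    exact lt_irrefl _ this
  have := int_Val v hi
  rwa [zsmul_eq_mul, map_mul, h1, one_mul] at this

theorem s_fin : SFin := by
  intro Ω _ _ _ T hT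
  induction T, hT using Set.Finite.induction_on with
  | empty => exact ⟨0, fun _ _ _ _ _ _ _ _ h => h.elim⟩
  | @insert a s _ _ ih =>
    refine and_Val ih (and_Val (Θ := fun _ _ v => v a ≤ 1 ∧ v a⁻¹ ≤ 1) (one_Val a) (one_Val a⁻¹)
      fun _ _ _ h1 h2 => ⟨h1, h2⟩) fun Γ _ v h1 h2 α hα => ?_
    rcases hα with rfl | hα
    · refine ⟨h2.1, fun h0 => le_antisymm h2.1 ?_⟩
      have h3 := h2.2
      rwa [map_inv₀, inv_le_one₀ ((v.pos_iff).2 h0)] at h3
    · exact h1 α hα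

theorem s_close : SClose := by
  intro Ω _ _ _ ι Q y₀
  induction Q using MvPolynomial.induction_on with
  | C a => exact ⟨0, fun _ _ _ _ _ v _ y _ => by simp⟩
  | add P Q h1 h2 =>
    refine and_Val h1 h2 fun Γ _ v h1 h2 y hy => ?_
    rw [map_add, map_add, add_sub_add_comm]
    exact v.map_add_lt (h1 y hy) (h2 y hy)
  | mul_X P i h1 =>
    refine and_Val h1 (and_Val (Θ := fun _ _ v => v (y₀ i) ≤ 1 ∧ v (eval y₀ P) ≤ 1)
      (one_Val (y₀ i)) (one_Val (eval y₀ P)) fun _ _ _ h1 h2 => ⟨h1, h2⟩)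
      fun Γ _ v h1 h2 y hy => ?_
    have e : eval y (P * X i) - eval y₀ (P * X i) =
        (eval y P - eval y₀ P) * (y i - y₀ i + y₀ i) + eval y₀ P * (y i - y₀ i) := by
      simp only [map_mul, eval_X]
      ring
    rw [e]
    refine v.map_add_lt ?_ ?_ <;> rw [map_mul]
    · exact mul_lt_one_of_nonneg_of_lt_one_left zero_le (h1 y hy) (v.map_add_le (hy i).le h2.1)
    · exact mul_lt_one_of_nonneg_of_lt_one_right h2.2 zero_le (hy i)

open NumberField IsDedekindDomain in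
theorem unif_Val (L : Type) [Field L] [NumberField L] (p : ℕ) (hp : p.Prime) :
    ∃ (w : HeightOneSpectrum (𝓞 L)) (π : 𝓞 L) (e : ℕ), (p : 𝓞 L) ∈ w.asIdeal ∧
      w.valuation L (π : L) = WithZero.exp (-1 : ℤ) ∧ (p : 𝓞 L) ∣ π ^ (e + 1) := by
  have h0 : Ideal.span {(p : 𝓞 L)} ≠ ⊥ := by
    rw [Ne, Ideal.span_singleton_eq_bot]
    exact_mod_cast hp.ne_zero
  have h1 : Ideal.span {(p : 𝓞 L)} ≠ ⊤ := by
    rw [Ne, Ideal.span_singleton_eq_top]
    intro hu
    have := hu.map (Algebra.norm ℤ (S := 𝓞 L))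
    rw [← map_natCast (algebraMap ℤ (𝓞 L)), Algebra.norm_algebraMap,
      isUnit_pow_iff (Module.finrank_pos).ne', Int.isUnit_iff_natAbs_eq, Int.natAbs_natCast] at this
    exact hp.ne_one this
  obtain ⟨P, hP, hle⟩ := Ideal.exists_le_maximal _ h1
  let w : HeightOneSpectrum (𝓞 L) := ⟨P, hP.isPrime, fun h => h0 (le_bot_iff.1 (h ▸ hle))⟩
  obtain ⟨A, hA, he⟩ := Ideal.eq_prime_pow_mul_coprime h0 P
  obtain ⟨q, hq, hq'⟩ : ∃ q ∈ A, q ∉ P := by
    by_contra hc
    push Not at hc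
    exact hP.ne_top (by rw [← hA, sup_of_le_left hc])
  obtain ⟨π, hπ⟩ := w.intValuation_exists_uniformizer
  have hπ' : π ∈ P := by
    rw [show P = w.asIdeal from rfl, ← w.intValuation_lt_one_iff_mem, hπ, ← WithZero.exp_zero,
      WithZero.exp_lt_exp]
    norm_num
  generalize Multiset.count P _ = e at he
  refine ⟨w, π * q, e, hle (Ideal.mem_span_singleton_self _), ?_, ?_⟩
  · rw [show ((π * q : 𝓞 L) : L) = algebraMap (𝓞 L) L (π * q) from rfl,
      w.valuation_of_algebraMap, map_mul, hπ, (w.intValuation_eq_one_iff).2 hq', mul_one]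
  · rw [← Ideal.mem_span_singleton, he, pow_succ]
    exact Ideal.mul_mem_mul (Ideal.pow_mem_pow (P.mul_mem_right _ hπ') e) (A.mul_mem_left _ hq)

open NumberField IsDedekindDomain in
theorem s_unif : SUnif := by
  intro K Ω _ _ _ _ L _ p hp
  have : NumberField L := NumberField.of_module_finite K L
  obtain ⟨w, π, e, h1, h2, r, h3⟩ := unif_Val L p hp
  have h0 : (π : L) ≠ 0 := fun h => by
    rw [h, map_zero] at h2
    exact WithZero.exp_ne_zero h2.symm
  refine ⟨((π : L) : Ω), (π : L).2, fun h => h0 (Subtype.ext h), fun Γ _ v hv => ?_, ?_⟩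
  · let v' := v.comap (algebraMap L Ω)
    have h4 : v' (π : L) ^ (e + 1) = v (p : Ω) * v' (r : L) := by
      have := congrArg (fun z : 𝓞 L => v' (z : L)) h3
      simpa [v'] using this
    refine not_le.1 fun hle => ?_
    have h5 : 1 ≤ v' (π : L) ^ (e + 1) := one_le_pow₀ hle
    rw [h4] at h5
    exact absurd (mul_lt_one_of_nonneg_of_lt_one_left zero_le hv (int_Val v' r.2)) (not_lt.2 h5)
  · obtain ⟨A, hA, hl⟩ := IsLocalRing.exists_factor_valuationRing
      ((algebraMap L Ω).comp (w.valuation L).valuationSubring.subtype)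
    have hle : ∀ u : L, w.valuation L u ≤ 1 → A.valuation (u : Ω) ≤ 1 := fun u hu =>
      (A.valuation_le_one_iff _).2 (hA ⟨u, hu⟩)
    refine ⟨_, inferInstance, A.valuation, ?_, fun c hc hc0 => ?_⟩
    · have h4 : (p : (w.valuation L).valuationSubring) ∈ IsLocalRing.maximalIdeal _ := by
        rw [Valuation.mem_maximalIdeal_iff]
        have := (w.valuation_lt_one_iff_mem (K := L) _).2 h1
        simpa using this
      have h5 : (p : A) ∈ IsLocalRing.maximalIdeal A := fun hu => h4 (hl.map_nonunit _ (by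
        rw [map_natCast]; exact hu))
      simpa using (A.valuation_lt_one_iff _).1 h5
    · have h4 : w.valuation L ⟨c, hc⟩ ≠ 0 := (Valuation.ne_zero_iff _).2 fun h =>
        hc0 (congrArg Subtype.val h)
      refine ⟨-WithZero.log (w.valuation L ⟨c, hc⟩), ?_⟩
      set n := -WithZero.log (w.valuation L ⟨c, hc⟩) with hn
      have h5 : w.valuation L ⟨c, hc⟩ = w.valuation L ((π : L) ^ n) := by
        rw [map_zpow₀, h2, ← WithZero.exp_zsmul, hn]
        simp [WithZero.exp_log h4]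
      have h6 : (π : L) ^ n ≠ 0 := zpow_ne_zero _ h0
      have h7 := hle (⟨c, hc⟩ / (π : L) ^ n) (by rw [map_div₀, ← h5, div_self h4])
      have h8 := hle ((π : L) ^ n / ⟨c, hc⟩) (by rw [map_div₀, ← h5, div_self h4])
      have h9 : A.valuation (((π : L) ^ n : L) : Ω) ≠ 0 := (Valuation.ne_zero_iff _).2
        fun h => h6 (Subtype.ext h)
      rw [← map_zpow₀, show ((π : L) : Ω) ^ n = (((π : L) ^ n : L) : Ω) from
        (map_zpow₀ (algebraMap L Ω) _ n).symm]
      push_cast at h7 h8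
      rw [map_div₀, div_le_one₀ (zero_lt_iff.2 h9)] at h7
      rw [map_div₀, div_le_one₀ ((A.valuation.pos_iff).2 hc0)] at h8
      exact le_antisymm h7 h8

end Pool.Agent.E6s
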