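import Pool.Agent.E6s.Pt
import Pool.Agent.E6s.Val

/- Statements of the steps for curves of genus at most two. -/

set_option autoImplicit false

namespace Pool.Agent.E6s

open MvPolynomial

/-- The affine curve `w ^ 2 = F s`. -/
def hyp {Ω : Type} [Field Ω] (F : Polynomial Ω) : Set (Fin 2 → Ω) :=
  {y | y 1 ^ 2 = F.eval (y 0)}

/-- The elements of `T` are units or zero. -/
def Good {Ω Γ : Type} [Field Ω] [LinearOrderedCommGroupWithZero Γ] (T : Set Ω)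
    (v : Valuation Ω Γ) : Prop := ∀ α ∈ T, v α ≤ 1 ∧ (α ≠ 0 → v α = 1)

/-- Totally ramified points of degree `m` near the base point `(0, w₀)`. -/
def Ram {K Ω : Type} [Field K] [Field Ω] [Algebra K Ω] (L : IntermediateField K Ω)
    (F : Polynomial Ω) (w₀ : Ω) (m : ℕ) : Prop :=
  ∃ T : Set Ω, T.Finite ∧ ∀ π ∈ L, π ≠ 0 →
    ∀ (Γ₀ : Type) [LinearOrderedCommGroupWithZero Γ₀] (v₀ : Valuation Ω Γ₀), v₀ π < 1 →
      Good T v₀ → (∀ c ∈ L, c ≠ 0 → ∃ n : ℤ, v₀ c = v₀ π ^ n) →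
      ∃ y ∈ hyp F, y 0 ≠ 0 ∧
        (∀ (Γ : Type) [LinearOrderedCommGroupWithZero Γ] (v : Valuation Ω Γ), v π < 1 →
          Good T v → v (y 0) < 1 ∧ v (y 1 - w₀) < 1) ∧
        Module.finrank L (IntermediateField.adjoin L (Set.range y)) = m

/-- Base point a branch point, genus at most one. -/
def SPtA : Prop := ∀ (K Ω : Type) [Field K] [Field Ω] [CharZero Ω] [IsAlgClosed Ω] [Algebra K Ω]
  (L : IntermediateField K Ω) (F : Polynomial Ω), (∀ i, F.coeff i ∈ L) → F.coeff 0 = 0 →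
    F.coeff 1 ≠ 0 → F.natDegree ≤ 4 → ∀ j : ℕ, Ram L F 0 (2 * j + 3)

/-- Base point not a branch point, genus at most two. -/
def SPtB : Prop := ∀ (K Ω : Type) [Field K] [Field Ω] [CharZero Ω] [IsAlgClosed Ω] [Algebra K Ω]
  (L : IntermediateField K Ω) (F : Polynomial Ω) (w₀ : Ω), (∀ i, F.coeff i ∈ L) → w₀ ∈ L →
    w₀ ≠ 0 → w₀ ^ 2 = F.eval 0 → F.natDegree ≤ 6 → ∀ m : ℕ, 3 ≤ m → Ram L F w₀ m

/-- Injective as a map to projective space outside `S`. -/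
def Inj {Ω ι : Type} [Field Ω] (F : Polynomial Ω) (P : ι → MvPolynomial (Fin 2) Ω)
    (S : Set (Fin 2 → Ω)) : Prop :=
  ∀ y ∈ hyp F \ S, ∀ y' ∈ hyp F \ S,
    (∀ i j, eval y (P i) * eval y' (P j) = eval y (P j) * eval y' (P i)) → y = y'

/-- Elimination: common points of two curves satisfy a relation. -/
def SElim : Prop := ∀ (Ω ι : Type) [Field Ω] [IsAlgClosed Ω] [Finite ι] (F F' : Polynomial Ω)
  (P P' : ι → MvPolynomial (Fin 2) Ω) (S S' : Set (Fin 2 → Ω)), S.Finite → S'.Finite →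
    Inj F P S → Inj F' P' S' → ∃ R : MvPolynomial (Fin 2) Ω, R ≠ 0 ∧ ∀ y ∈ hyp F, ∀ y' ∈ hyp F',
      (∀ i j, eval y' (P' i) * eval y (P j) = eval y' (P' j) * eval y (P i)) →
        eval ![y 0, y' 0] R = 0

/-- A congruence class of values which are not squares. -/
def SNsq : Prop := ∀ (L : Type) [Field L] [NumberField L] (F : Polynomial L), F.Separable →
  0 < F.natDegree → ∀ N : ℕ, 0 < N → ∃ (s₁ : L) (M : ℕ), IsIntegral ℤ s₁ ∧ 0 < M ∧
    ∀ β : L, IsIntegral ℤ β → ¬ IsSquare (F.eval ((N : L) * (s₁ + M * β)))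

/-- Elements of a congruence class independent of their conjugates. -/
def SGrid : Prop := ∀ (K L Ω : Type) [Field K] [NumberField K] [Field L] [Algebra K L]
  [FiniteDimensional K L] [Field Ω] [Algebra K Ω] (τ₀ : L →ₐ[K] Ω)
  (R : (L →ₐ[K] Ω) → MvPolynomial (Fin 2) Ω), (∀ τ, R τ ≠ 0) → ∀ (a : L) (c : ℕ), 0 < c →
    ∀ T : Set Ω, T.Finite → ∃ β : L, IsIntegral ℤ β ∧ τ₀ (a + c * β) ∉ T ∧
      ∀ τ, τ ≠ τ₀ → eval ![τ₀ (a + c * β), τ (a + c * β)] (R τ) ≠ 0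

end Pool.Agent.E6s
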