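import Pool.Agent.E6s.Gal
import Pool.Agent.E6s.St2

set_option autoImplicit false

namespace Pool.Agent.E6s

open MvPolynomial

theorem aeval_scale {K Ω ι : Type} [Field K] [Field Ω] [Algebra K Ω] {m : ℕ}
    {g : MvPolynomial ι K} (hg : g.IsHomogeneous m) (c : Ω) (x : ι → Ω) :
    aeval (fun i => c * x i) g = c ^ m * aeval x g := by
  rw [aeval_def, aeval_def, eval₂_eq, eval₂_eq, Finset.mul_sum]
  refine Finset.sum_congr rfl fun d hd => ?_
  have h : ∑ i ∈ d.support, d i = m := by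
    have h1 := hg (mem_support_iff.1 hd)
    rw [← h1, Finsupp.weight_apply, Finsupp.sum]
    simp
  simp only [mul_pow, Finset.prod_mul_distrib, Finset.prod_pow_eq_pow_sum, h]
  ring

theorem Ev.all {Ω ι : Type} [Field Ω] [Finite ι]
    {Φ : ι → ∀ (Γ : Type) [LinearOrderedCommGroupWithZero Γ], Valuation Ω Γ → Prop}
    (h : ∀ i, Ev Ω (Φ i)) : Ev Ω fun Γ _ v => ∀ i, Φ i Γ v := by
  choose N hN using h
  obtain ⟨M, hM⟩ := (Set.finite_range N).bddAbove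
  exact ⟨M, fun p hp hp' Γ _ v hv i => hN i p hp ((hM ⟨i, rfl⟩).trans hp') Γ v hv⟩

theorem minor_lt {Ω Γ : Type} [Field Ω] [LinearOrderedCommGroupWithZero Γ] (v : Valuation Ω Γ)
    {a b c d a' b' c' d' : Ω} (ha : v (a' - a) < 1) (hb : v (b' - b) < 1) (hc : v (c' - c) < 1)
    (hd : v (d' - d) < 1) (ha1 : v a ≤ 1) (hb1 : v b ≤ 1) (hc1 : v c ≤ 1) (hd1 : v d ≤ 1)
    (h : a' * b' = c' * d') : v (a * b - c * d) < 1 := by
  have key : ∀ {x y x' y' : Ω}, v (x' - x) < 1 → v (y' - y) < 1 → v x ≤ 1 → v y ≤ 1 →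
      v (x' * y' - x * y) < 1 := by
    intro x y x' y' h1 h2 h3 h4
    rw [show x' * y' - x * y = (x' - x) * (y' - y) + ((x' - x) * y + (y' - y) * x) by ring]
    refine v.map_add_lt ?_ (v.map_add_lt ?_ ?_) <;> rw [map_mul]
    · exact mul_lt_one_of_nonneg_of_lt_one_left zero_le h1 h2.le
    · exact mul_lt_one_of_nonneg_of_lt_one_left zero_le h1 h4
    · exact mul_lt_one_of_nonneg_of_lt_one_left zero_le h2 h3
  rw [show a * b - c * d = (c' * d' - c * d) - (a' * b' - a * b) by rw [h]; ring]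
  exact v.map_sub_lt (key hc hd hc1 hd1) (key ha hb ha1 hb1)

theorem finite_conj {K Ω : Type} [Field K] [Field Ω] [Algebra K Ω] [Algebra.IsAlgebraic K Ω]
    (α : Ω) : (Set.range fun σ : Ω ≃ₐ[K] Ω => σ α).Finite := by
  have hi : IsIntegral K α := (Algebra.IsAlgebraic.isAlgebraic α).isIntegral
  refine ((minpoly K α).rootSet_finite Ω).subset ?_
  rintro _ ⟨σ, rfl⟩
  refine Polynomial.mem_rootSet.2 ⟨minpoly.ne_zero hi, ?_⟩
  exact (Polynomial.aeval_algHom_apply (σ : Ω →ₐ[K] Ω) α _).trans (by rw [minpoly.aeval, map_zero])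

theorem map_fix {K Ω : Type} [Field K] [Field Ω] [Algebra K Ω] {L : IntermediateField K Ω}
    {σ σ' : Ω →+* Ω} (h : ∀ t ∈ L, σ t = σ' t) {p : MvPolynomial (Fin 2) Ω}
    (hc : ∀ d, coeff d p ∈ L) : MvPolynomial.map σ p = MvPolynomial.map σ' p :=
  MvPolynomial.ext _ _ fun d => by rw [coeff_map, coeff_map, h _ (hc d)]

theorem map_hyp {Ω : Type} [Field Ω] (σ : Ω →+* Ω) {F : Polynomial Ω} {y : Fin 2 → Ω}
    (h : y ∈ hyp F) : σ ∘ y ∈ hyp (F.map σ) := by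
  have e := congrArg σ (show y 1 ^ 2 = F.eval (y 0) from h)
  rw [map_pow, ← Polynomial.eval_map_apply] at e
  exact e

section
variable {K Ω ι : Type} [Field K] [Field Ω] [Algebra K Ω] {L : IntermediateField K Ω}
  {F : Polynomial Ω} {P : ι → MvPolynomial (Fin 2) Ω} {S : Set (Fin 2 → Ω)} {y : Fin 2 → Ω}

theorem fix_pt (hF : ∀ i, F.coeff i ∈ L) (hc : ∀ i d, coeff d (P i) ∈ L) (hinj : Inj F P S)
    (hy : y ∈ hyp F) (σ : Ω ≃ₐ[K] Ω) (hL : ∀ t ∈ L, σ t = t) (h1 : y ∉ S) (h2 : σ ∘ y ∉ S)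
    (hpar : ∀ i j, σ (eval y (P i)) * eval y (P j) = σ (eval y (P j)) * eval y (P i)) :
    σ ∘ y = y := by
  have hev : ∀ i, σ (eval y (P i)) = eval (σ ∘ y) (P i) := fun i =>
    (map_eval (σ : Ω →+* Ω) y (P i)).trans (by
      rw [map_fix (σ' := RingHom.id Ω) hL (hc i), map_id]
      rfl)
  have e : F.map (σ : Ω →+* Ω) = F :=
    Polynomial.ext fun i => (Polynomial.coeff_map _ _).trans (hL _ (hF i))
  exact hinj _ ⟨e ▸ map_hyp (σ : Ω →+* Ω) hy, h2⟩ _ ⟨hy, h1⟩ fun i j => by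
    rw [← hev, ← hev, hpar]

theorem fin_deg [IsGalois K Ω] (hc : ∀ i d, coeff d (P i) ∈ L) {i₀ : ι}
    (hz0 : eval y (P i₀) ≠ 0) (h : ∀ σ : Ω ≃ₐ[K] Ω,
      (∀ i j, σ (eval y (P i)) * eval y (P j) = σ (eval y (P j)) * eval y (P i)) →
        (∀ t ∈ L, σ t = t) ∧ σ ∘ y = y) :
    Module.finrank K (rf K fun i => eval y (P i)) =
      Module.finrank K L * Module.finrank L (IntermediateField.adjoin L (Set.range y)) := by
  have hF' : (rf K fun i => eval y (P i)) =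
      (IntermediateField.adjoin L (Set.range y)).restrictScalars K := by
    refine le_antisymm (IntermediateField.adjoin_le_iff.2 ?_) fun t ht => ?_
    · have h1 : ∀ i, eval y (P i) ∈ IntermediateField.adjoin L (Set.range y) := fun i =>
        eval_mem (fun d _ => IntermediateField.algebraMap_mem _ (⟨_, hc i d⟩ : L))
          fun j => IntermediateField.subset_adjoin _ _ ⟨j, rfl⟩
      rintro _ ⟨i, j, rfl⟩
      exact div_mem (h1 i) (h1 j)
    rw [← InfiniteGalois.fixedField_fixingSubgroup (rf K fun i => eval y (P i)),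
      IntermediateField.mem_fixedField_iff]
    intro σ hσ
    rw [mem_fix] at hσ
    have hσ0 : σ (eval y (P i₀)) ≠ 0 := by simpa using hz0
    obtain ⟨hL, hyy⟩ := h σ fun i j => by
      have e1 := hσ i i₀
      have e2 := hσ j i₀
      rw [map_div₀, div_eq_div_iff hσ0 hz0] at e1 e2
      apply mul_right_cancel₀ hz0
      linear_combination eval y (P j) * e1 - eval y (P i) * e2
    refine fix_adjoin (K := L) (σ : Ω →+* Ω) _ (fun c => hL c c.2) ?_ ht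
    rintro _ ⟨j, rfl⟩
    exact congrFun hyy j
  rw [hF']
  exact (Module.finrank_mul_finrank K L (IntermediateField.adjoin L (Set.range y))).symm

end

section
variable {K Ω ι : Type} [Field K] [NumberField K] [Field Ω] [Algebra K Ω] [IsAlgClosure K Ω]
  [Finite ι] {F : Polynomial Ω} {w₀ : Ω} {P : ι → MvPolynomial (Fin 2) Ω} {S : Set (Fin 2 → Ω)}
  {x : ι → Ω}

/-- Points congruent to the base point. -/
theorem ev_close [CharZero Ω] [Algebra.IsAlgebraic ℚ Ω] (hx : x ≠ 0) (hxP : ∀ i, x i = eval ![0, w₀] (P i))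
    (g : MvPolynomial ι Ω) (hg : eval x g ≠ 0) : Ev Ω fun _ _ v => ∀ y : Fin 2 → Ω,
      v (y 0) < 1 → v (y 1 - w₀) < 1 → (∀ i, v (eval y (P i) - x i) < 1) ∧
        (∃ i, eval y (P i) ≠ 0) ∧ eval (fun i => eval y (P i)) g ≠ 0 := by
  obtain ⟨i₀, hi₀⟩ := Function.ne_iff.1 hx
  refine and_Val (s_fin Ω {x i₀, eval x g} (Set.toFinite _))
    (and_Val (Ev.all fun i => s_close Ω _ (P i) ![0, w₀]) (s_close Ω _ g x)
      fun _ _ _ h h' => And.intro h h') fun Γ _ v h₁ ⟨h₂, h₃⟩ y y0 y1 => ?_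
  have hz : ∀ i, v (eval y (P i) - x i) < 1 := fun i => by
    rw [hxP]
    refine h₂ i y fun j => ?_
    fin_cases j
    · simpa using y0
    · simpa using y1
  refine ⟨hz, ⟨i₀, fun h => ?_⟩, fun h => ?_⟩
  · have h1 := hz i₀
    rw [h, zero_sub, v.map_neg, (h₁ _ (by simp)).2 hi₀] at h1
    exact lt_irrefl _ h1
  · have h1 := h₃ _ hz
    rw [h, zero_sub, v.map_neg, (h₁ _ (by simp)).2 hg] at h1
    exact lt_irrefl _ h1

/-- Points of degree `e * m` near a point of degree `e`. -/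
theorem near (hx : x ≠ 0) (hxP : ∀ i, x i = eval ![0, w₀] (P i)) [FiniteDimensional K (rf K x)]
    (hF : ∀ i, F.coeff i ∈ rf K x) (hc : ∀ i d, coeff d (P i) ∈ rf K x) (hS : S.Finite)
    (hinj : Inj F P S) {m : ℕ} (hm : Ram (rf K x) F w₀ m) (g : MvPolynomial ι Ω)
    (hg : eval x g ≠ 0) :
    ∃ y ∈ hyp F, (fun i => eval y (P i)) ≠ 0 ∧ eval (fun i => eval y (P i)) g ≠ 0 ∧
      Module.finrank K (rf K fun i => eval y (P i)) = Module.finrank K (rf K x) * m := by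
  have : CharZero Ω := charZero_of_injective_algebraMap (algebraMap K Ω).injective
  have : Algebra.IsAlgebraic ℚ Ω := Algebra.IsAlgebraic.trans ℚ K Ω
  have hgal : IsGalois K Ω := {}
  obtain ⟨T, hT, hm⟩ := hm
  let C : Set Ω := ⋃ i, Set.range fun σ : Ω ≃ₐ[K] Ω => σ (x i)
  have hCf : C.Finite := Set.finite_iUnion fun i => finite_conj _
  have hCm : ∀ (σ : Ω ≃ₐ[K] Ω) i, σ (x i) ∈ C := fun σ i => Set.mem_iUnion.2 ⟨i, σ, rfl⟩
  have hC1 : ∀ i, x i ∈ C := hCm 1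
  let D : Set Ω := Set.image2 (· * ·) C C
  have hDf : D.Finite := hCf.image2 _ hCf
  obtain ⟨N₁, h₁⟩ := s_fin Ω _ hCf
  obtain ⟨N₂, h₂⟩ := s_fin Ω _ (hDf.image2 (· - ·) hDf)
  obtain ⟨N₃, h₃⟩ := s_fin Ω _ (hS.image fun y => y 0)
  obtain ⟨N₄, h₄⟩ := s_fin Ω T hT
  obtain ⟨N₅, h₅⟩ := ev_close hx hxP g hg
  obtain ⟨p, hpN, hp⟩ := Nat.exists_infinite_primes (N₁ + N₂ + N₃ + N₄ + N₅)
  replace h₁ := h₁ p hp (by omega)
  replace h₂ := h₂ p hp (by omega)
  replace h₃ := h₃ p hp (by omega)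
  replace h₄ := h₄ p hp (by omega)
  replace h₅ := h₅ p hp (by omega)
  obtain ⟨π, π1, π2, π3, Γ, _, v, v1, v2⟩ := s_unif K Ω (rf K x) p hp
  obtain ⟨y, y1, y2, y3, y4⟩ := hm π π1 π2 Γ v (π3 Γ v v1) (h₄ Γ v v1) v2
  have hy := fun (w : Valuation Ω Γ) (hw : w (p : Ω) < 1) => y3 Γ w (π3 Γ w hw) (h₄ Γ w hw)
  have hz := fun (w : Valuation Ω Γ) (hw : w (p : Ω) < 1) =>
    h₅ Γ w hw y (hy w hw).1 (hy w hw).2
  obtain ⟨i₀, hz0⟩ := (hz v v1).2.1
  refine ⟨y, y1, Function.ne_iff.2 ⟨i₀, hz0⟩, (hz v v1).2.2, ?_⟩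
  rw [← y4]
  refine fin_deg hc hz0 fun σ hpar => ?_
  have hv' : v.comap (σ : Ω →+* Ω) (p : Ω) < 1 := by
    rw [Valuation.comap_apply, map_natCast]
    exact v1
  have hz' : ∀ i, v (σ (eval y (P i)) - σ (x i)) < 1 := fun i => by
    rw [← map_sub]
    exact (hz _ hv').1 i
  have hmin : ∀ i j, σ (x i) * x j = σ (x j) * x i := fun i j => by
    by_contra h
    have h1 := minor_lt v (hz' i) ((hz v v1).1 j) (hz' j) ((hz v v1).1 i)
      (h₁ Γ v v1 _ (hCm σ i)).1 (h₁ Γ v v1 _ (hC1 j)).1 (h₁ Γ v v1 _ (hCm σ j)).1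
      (h₁ Γ v v1 _ (hC1 i)).1 (hpar i j)
    rw [(h₂ Γ v v1 _ (Set.mem_image2_of_mem (Set.mem_image2_of_mem (hCm σ i) (hC1 j))
      (Set.mem_image2_of_mem (hCm σ j) (hC1 i)))).2 (sub_ne_zero.2 h)] at h1
    exact lt_irrefl _ h1
  have hL : ∀ t ∈ rf K x, σ t = t :=
    (IntermediateField.mem_fixingSubgroup_iff _ _).1 ((mem_fix x σ).2 fun i j => by
      by_cases hj : x j = 0
      · rw [hj, div_zero, map_zero]
      · rw [map_div₀, div_eq_div_iff (by simpa using hj) hj, hmin i j, mul_comm])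
  have hS' : ∀ y' : Fin 2 → Ω, y' 0 ≠ 0 → v (y' 0) < 1 → y' ∉ S := fun y' h h' hy' => by
    rw [(h₃ Γ v v1 _ (Set.mem_image_of_mem _ hy')).2 h] at h'
    exact lt_irrefl _ h'
  exact ⟨hL, fix_pt hF hc hinj y1 σ hL (hS' _ y2 (hy v v1).1)
    (hS' _ (by simpa using y2) (hy _ hv').1) hpar⟩

end

end Pool.Agent.E6s
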