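import Pool.Agent.E6s.St2

/- A congruence class of values of a separable polynomial which are not squares. -/

set_option autoImplicit false

namespace Pool.Agent.E6s

open Polynomial NumberField Filter

section nsq
variable {L : Type} [Field L] [NumberField L]

theorem clear_Nsq (P : L[X]) : ∃ (b : 𝓞 L) (Q : (𝓞 L)[X]), b ≠ 0 ∧
    Q.map (algebraMap (𝓞 L) L) = C (algebraMap (𝓞 L) L b) * P := by
  obtain ⟨b, hb, h⟩ := IsLocalization.integerNormalization_spec (nonZeroDivisors (𝓞 L)) P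
  exact ⟨b, _, nonZeroDivisors.ne_zero hb, by rw [h, ← smul_eq_C_mul, algebraMap_smul]⟩

theorem nonunit_Nsq (Ψ : (𝓞 L)[X]) (h : 0 < Ψ.natDegree) :
    ∃ t : ℕ, ¬ IsUnit (Ψ.eval (t : 𝓞 L)) := by
  have key : ∀ φ : L →+* ℂ, ∀ᶠ t : ℕ in atTop,
      1 < ‖φ (algebraMap (𝓞 L) L (Ψ.eval (t : 𝓞 L)))‖ := fun φ => by
    have inj : Function.Injective (φ.comp (algebraMap (𝓞 L) L)) :=
      φ.injective.comp (IsFractionRing.injective (𝓞 L) L)
    have hd : 0 < (Ψ.map (φ.comp (algebraMap (𝓞 L) L))).degree := by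
      rw [degree_map_eq_of_injective inj]
      exact natDegree_pos_iff_degree_pos.1 h
    have ht := tendsto_norm_atTop _ hd (l := atTop) (z := fun t : ℕ => (t : ℂ))
      (by simpa using tendsto_natCast_atTop_atTop)
    filter_upwards [ht.eventually_gt_atTop 1] with t ht
    rwa [eval_natCast_map] at ht
  obtain ⟨t, ht⟩ := (eventually_all.2 key).exists
  refine ⟨t, fun hu => ?_⟩
  obtain ⟨y, hy⟩ := hu.exists_right_inv
  have e : algebraMap (𝓞 L) L (Ψ.eval (t : 𝓞 L)) * algebraMap (𝓞 L) L y = 1 := by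
    rw [← map_mul, hy, map_one]
  have lt : ∀ φ : L →+* ℂ, ‖φ (algebraMap (𝓞 L) L y)‖ < 1 := fun φ => by
    have e1 := congrArg (fun x => ‖φ x‖) e
    simp only [map_mul, norm_mul, map_one, norm_one] at e1
    have h1 := ht φ
    by_contra h2
    have h3 := not_lt.1 h2
    nlinarith
  obtain ⟨n, hn, e2⟩ := Embeddings.pow_eq_one_of_norm_le_one L ℂ (right_ne_zero_of_mul_eq_one e)
    y.isIntegral_coe (fun φ => (lt φ).le)
  let φ : L →+* ℂ := (IsAlgClosed.lift (R := ℚ) (S := L) (M := ℂ)).toRingHom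
  have e3 := congrArg (fun x => ‖φ x‖) e2
  simp only [map_pow, norm_pow, map_one, norm_one] at e3
  exact (pow_lt_one₀ (norm_nonneg _) (lt φ) hn.ne').ne e3

theorem prime_Nsq (G : (𝓞 L)[X]) (h : 0 < G.natDegree) {r : 𝓞 L} (hr : r ≠ 0) :
    ∃ (q : Ideal (𝓞 L)) (n : 𝓞 L), q.IsMaximal ∧ G.eval n ∈ q ∧ r ∉ q := by
  have hG : G ≠ 0 := fun e => by simp [e] at h
  obtain ⟨n0, ha⟩ : ∃ n0, G.eval n0 ≠ 0 := by
    by_contra hc
    push Not at hc
    exact hG (Polynomial.funext (fun x => by simpa using hc x))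
  obtain ⟨K, hK⟩ := X_sub_C_dvd_sub_C_eval (p := G) (a := n0)
  generalize G.eval n0 = a at ha hK
  have e : C a * (1 + C r * X * K.comp (C (a * r) * X + C n0)) = G.comp (C (a * r) * X + C n0) := by
    have := congrArg (fun p => p.comp (C (a * r) * X + C n0)) hK
    simp only [sub_comp, mul_comp, X_comp, C_comp] at this
    rw [C_mul] at this ⊢
    linear_combination -this
  have hd : 0 < (1 + C r * X * K.comp (C (a * r) * X + C n0)).natDegree := by
    rw [← natDegree_C_mul ha, e, natDegree_comp, natDegree_linear (mul_ne_zero ha hr), mul_one]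
    exact h
  obtain ⟨t, ht⟩ := nonunit_Nsq _ hd
  obtain ⟨q, hq, hm⟩ := exists_max_ideal_of_mem_nonunits (mem_nonunits_iff.2 ht)
  refine ⟨q, (C (a * r) * X + C n0).eval (t : 𝓞 L), hq, ?_, fun hrq => hq.ne_top ?_⟩
  · rw [← eval_comp, ← e, eval_mul]
    exact q.mul_mem_left _ hm
  · rw [eval_add, eval_one, mul_assoc, eval_mul, eval_C] at hm
    rw [Ideal.eq_top_iff_one]
    exact (q.add_mem_iff_left (q.mul_mem_right _ hrq)).1 hm

theorem simple_Nsq (G : (𝓞 L)[X]) {q : Ideal (𝓞 L)} (hq : q.IsMaximal) {n : 𝓞 L}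
    (h : G.eval n ∈ q) (h' : G.derivative.eval n ∉ q) :
    ∃ s : 𝓞 L, G.eval s ∈ q ∧ G.eval s ∉ q ^ 2 := by
  by_cases h2 : G.eval n ∈ q ^ 2
  swap
  · exact ⟨n, h, h2⟩
  have hb : q ≠ ⊥ := Ring.ne_bot_of_isMaximal_of_not_isField hq (RingOfIntegers.not_isField L)
  obtain ⟨π, p1, p2⟩ := Ideal.exists_mem_pow_notMem_pow_succ q hb hq.ne_top 1
  rw [pow_one] at p1
  obtain ⟨k, hk⟩ := binomExpansion G n π
  have p3 : k * π ^ 2 ∈ q ^ 2 := Ideal.mul_mem_left _ _ (Ideal.pow_mem_pow p1 2)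
  refine ⟨n + π, ?_, fun m => ?_⟩
  · rw [hk]
    exact q.add_mem (q.add_mem h (q.mul_mem_left _ p1)) (Ideal.pow_le_self two_ne_zero p3)
  · rw [hk, Ideal.add_mem_iff_left _ p3, Ideal.add_mem_iff_right _ h2] at m
    have := hq.isPrime
    exact (Ideal.IsPrime.mul_mem_pow q m).elim h' p2

theorem bezout_Nsq (G : (𝓞 L)[X]) (h : (G.map (algebraMap (𝓞 L) L)).Separable) :
    ∃ (r : 𝓞 L) (A B : (𝓞 L)[X]), r ≠ 0 ∧ A * G + B * G.derivative = C r := by
  obtain ⟨A, B, e⟩ := h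
  obtain ⟨a, A1, ha, eA⟩ := clear_Nsq A
  obtain ⟨b, B1, hb, eB⟩ := clear_Nsq B
  refine ⟨a * b, C b * A1, C a * B1, mul_ne_zero ha hb, ?_⟩
  apply map_injective _ (IsFractionRing.injective (𝓞 L) L)
  rw [derivative_map] at e
  simp only [Polynomial.map_add, Polynomial.map_mul, map_C, eA, eB, map_mul]
  linear_combination (C (algebraMap (𝓞 L) L a) * C (algebraMap (𝓞 L) L b)) * e

end nsq

theorem s_nsq : SNsq := by
  intro L _ _ F hF hd N hN
  have hN' : (N : L) ≠ 0 := Nat.cast_ne_zero.2 hN.ne'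
  have inj := IsFractionRing.injective (𝓞 L) L
  have s1 : (F.comp (C (N : L) * X)).Separable := by
    have h1 : IsCoprime (F.comp (C (N : L) * X)) (F.derivative.comp (C (N : L) * X)) :=
      IsCoprime.map hF (compRingHom (C (N : L) * X))
    rw [Separable, derivative_comp, derivative_C_mul_X]
    exact (isCoprime_mul_unit_left_right (isUnit_C.2 hN'.isUnit) _ _).2 h1
  obtain ⟨b, Q, hb, eQ⟩ := clear_Nsq (F.comp (C (N : L) * X))
  have hb' : algebraMap (𝓞 L) L b ≠ 0 := fun e => hb (inj (by rw [e, map_zero]))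
  have eG : (C b * Q).map (algebraMap (𝓞 L) L) =
      C (algebraMap (𝓞 L) L b ^ 2) * F.comp (C (N : L) * X) := by
    rw [Polynomial.map_mul, map_C, eQ, ← mul_assoc, ← C_mul, sq]
  generalize C b * Q = G at eG
  have hG : 0 < G.natDegree := by
    rw [← natDegree_map_eq_of_injective inj, eG, natDegree_C_mul (pow_ne_zero 2 hb'),
      natDegree_comp, natDegree_C_mul_X _ hN', mul_one]
    exact hd
  obtain ⟨r, A, B, hr, e⟩ := bezout_Nsq G
    (by rw [eG]; exact s1.unit_mul (isUnit_C.2 (pow_ne_zero 2 hb').isUnit))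
  obtain ⟨q, n, hq, h1, h2⟩ := prime_Nsq G hG hr
  have h3 : G.derivative.eval n ∉ q := fun m => h2 (by
    have := congrArg (eval n) e
    rw [eval_add, eval_mul, eval_mul, eval_C] at this
    rw [← this]
    exact q.add_mem (q.mul_mem_left _ h1) (q.mul_mem_left _ m))
  obtain ⟨s, p1, p2⟩ := simple_Nsq G hq h1 h3
  have hqb : q ≠ ⊥ := Ring.ne_bot_of_isMaximal_of_not_isField hq (RingOfIntegers.not_isField L)
  refine ⟨algebraMap (𝓞 L) L s, Ideal.absNorm q ^ 2, s.isIntegral_coe,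
    pow_pos (Nat.pos_of_ne_zero (fun m => hqb (Ideal.absNorm_eq_zero_iff.1 m))) 2, ?_⟩
  rintro β hβ ⟨g, hg⟩
  obtain ⟨β', rfl⟩ : ∃ β' : 𝓞 L, algebraMap (𝓞 L) L β' = β := ⟨⟨β, hβ⟩, rfl⟩
  have hM : ((Ideal.absNorm q ^ 2 : ℕ) : 𝓞 L) ∈ q ^ 2 := by
    rw [Nat.cast_pow]
    exact Ideal.pow_mem_pow (Ideal.absNorm_mem q) 2
  have d1 : G.eval (s + ((Ideal.absNorm q ^ 2 : ℕ) : 𝓞 L) * β') - G.eval s ∈ q ^ 2 := by
    obtain ⟨k, hk⟩ := sub_dvd_eval_sub (s + ((Ideal.absNorm q ^ 2 : ℕ) : 𝓞 L) * β') s G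
    rw [hk, add_sub_cancel_left]
    exact Ideal.mul_mem_right _ _ (Ideal.mul_mem_right _ _ hM)
  have e1 : algebraMap (𝓞 L) L (G.eval (s + ((Ideal.absNorm q ^ 2 : ℕ) : 𝓞 L) * β')) =
      (algebraMap (𝓞 L) L b * g) ^ 2 := by
    rw [← eval₂_at_apply, ← eval_map, eG, eval_mul, eval_C, eval_comp, eval_mul, eval_C, eval_X,
      map_add, map_mul, map_natCast, hg]
    ring
  generalize G.eval (s + ((Ideal.absNorm q ^ 2 : ℕ) : 𝓞 L) * β') = v at d1 e1
  have i1 : IsIntegral ℤ (algebraMap (𝓞 L) L b * g) :=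
    IsIntegral.of_pow two_pos (e1 ▸ v.isIntegral_coe)
  obtain ⟨w, hw⟩ : ∃ w : 𝓞 L, algebraMap (𝓞 L) L w = algebraMap (𝓞 L) L b * g := ⟨⟨_, i1⟩, rfl⟩
  have e2 : v = w ^ 2 := inj (by rw [e1, map_pow, hw])
  have v1 : v ∈ q := by
    have := q.add_mem (Ideal.pow_le_self two_ne_zero d1) p1
    rwa [sub_add_cancel] at this
  have w1 : w ∈ q := hq.isPrime.mem_of_pow_mem 2 (e2 ▸ v1)
  have v2 : v ∈ q ^ 2 := e2 ▸ Ideal.pow_mem_pow w1 2
  have := (q ^ 2).sub_mem v2 d1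
  rw [sub_sub_cancel] at this
  exact p2 this

end Pool.Agent.E6s
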