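import Pool.Agent.E6s.St

set_option autoImplicit false

namespace Pool.Agent.E6s

open Polynomial

section
variable {K Ω : Type} [Field K] [Field Ω] [Algebra K Ω] {L : IntermediateField K Ω}
  {Γ : Type} [LinearOrderedCommGroupWithZero Γ] {v : Valuation Ω Γ}

theorem ram_Pt {s π : Ω} {m : ℕ} (s0 : s ≠ 0) (s1 : v s < 1) (hm : v s ^ m = v π)
    (hv : ∀ c ∈ L, c ≠ 0 → ∃ n : ℤ, v c = v π ^ n) {f : L[X]} (f0 : f ≠ 0)
    (hf : aeval s f = 0) : m ≤ f.natDegree := by
  by_contra hlt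
  have x0 : v s ≠ 0 := (Valuation.ne_zero_iff v).2 s0
  have key : ∀ i ∈ f.support, ∃ n : ℤ, v ((f.coeff i : Ω) * s ^ i) = v s ^ (m * n + i : ℤ) := by
    intro i hi
    obtain ⟨n, hn⟩ := hv _ (f.coeff i).2 (by simpa using hi)
    exact ⟨n, by rw [map_mul, map_pow, hn, ← hm, zpow_add₀ x0, zpow_mul, zpow_natCast,
      zpow_natCast]⟩
  obtain ⟨j, hj, hmax⟩ := Finset.exists_max_image f.support
    (fun i => v ((f.coeff i : Ω) * s ^ i)) (support_nonempty.2 f0)
  have h1 := v.map_sum_eq_of_lt (f := fun i => (f.coeff i : Ω) * s ^ i) hj fun i hi => by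
    obtain ⟨hi1, hi2⟩ := Finset.mem_sdiff.1 hi
    refine (hmax i hi1).lt_of_ne fun e => hi2 (Finset.mem_singleton.2 ?_)
    obtain ⟨n, hn⟩ := key i hi1
    obtain ⟨n', hn'⟩ := key j hj
    rw [hn, hn'] at e
    have e1 : (m * n + i : ℤ) = m * n' + j :=
      zpow_right_injective₀ (zero_lt_iff.2 x0) s1.ne e
    have a1 := le_natDegree_of_mem_supp i hi1
    have a2 := le_natDegree_of_mem_supp j hj
    have e2 := congrArg (· % (m : ℤ)) e1
    simp only [Int.mul_add_emod_self_left] at e2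
    rw [Int.emod_eq_of_lt (by omega) (by omega), Int.emod_eq_of_lt (by omega) (by omega)] at e2
    omega
  have h2 : ∑ i ∈ f.support, (f.coeff i : Ω) * s ^ i = 0 := by
    rw [← hf, aeval_def, eval₂_eq_sum, Polynomial.sum_def]
    rfl
  obtain ⟨n, hn⟩ := key j hj
  rw [h2, map_zero, hn] at h1
  exact zpow_ne_zero _ x0 h1.symm

theorem rank_Pt {y : Fin 2 → Ω} {t π : Ω} {m : ℕ} (s0 : y 0 ≠ 0) (s1 : v (y 0) < 1)
    (hm : v (y 0) ^ m = v π) (hv : ∀ c ∈ L, c ≠ 0 → ∃ n : ℤ, v c = v π ^ n) {q : L[X]}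
    (q0 : q ≠ 0) (hq : aeval t q = 0) (hd : q.natDegree ≤ m)
    (hy : ∀ i, y i ∈ IntermediateField.adjoin L {t}) :
    Module.finrank L (IntermediateField.adjoin L (Set.range y)) = m := by
  have ht : IsIntegral L t := IsAlgebraic.isIntegral ⟨q, q0, hq⟩
  have := IntermediateField.adjoin.finiteDimensional ht
  have h1 : IntermediateField.adjoin L (Set.range y) ≤ IntermediateField.adjoin L {t} :=
    IntermediateField.adjoin_le_iff.2 (Set.range_subset_iff.2 hy)
  have h2 : IntermediateField.adjoin L {y 0} ≤ IntermediateField.adjoin L (Set.range y) :=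
    IntermediateField.adjoin.mono _ _ _ (Set.singleton_subset_iff.2 ⟨0, rfl⟩)
  have hs : IsIntegral L (y 0) := IntermediateField.isIntegral_iff.1
    (IsIntegral.of_finite L (⟨y 0, hy 0⟩ : IntermediateField.adjoin L {t}))
  have : FiniteDimensional L (IntermediateField.adjoin L (Set.range y)) :=
    Module.Finite.of_injective (IntermediateField.inclusion h1).toLinearMap
      (IntermediateField.inclusion_injective h1)
  refine le_antisymm ((IntermediateField.finrank_le_of_le_right h1).trans ?_)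
    (le_trans ?_ (IntermediateField.finrank_le_of_le_right h2))
  · rw [IntermediateField.adjoin.finrank ht]
    exact (natDegree_le_natDegree (minpoly.degree_le_of_ne_zero _ _ q0 hq)).trans hd
  · rw [IntermediateField.adjoin.finrank hs]
    exact ram_Pt s0 s1 hm hv (minpoly.ne_zero hs) (minpoly.aeval _ _)

theorem two_Pt {a b π : Ω} (h : v π < 1) (ha : v a ≤ 1) (hb : v b ≤ 1) :
    v (1 + (a * π ^ 2 + b * π ^ 3)) = 1 := by
  refine v.map_one_add_of_lt (v.map_add_lt ?_ ?_) <;> rw [map_mul, map_pow]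
  · exact (mul_le_of_le_one_left' ha).trans_lt (pow_lt_one₀ zero_le h (by norm_num))
  · exact (mul_le_of_le_one_left' hb).trans_lt (pow_lt_one₀ zero_le h (by norm_num))

theorem two'_Pt {a b π s : Ω} (h : v π < 1) (ha : v a ≤ 1) (hb : v b ≤ 1)
    (hs : (1 + (a * π ^ 2 + b * π ^ 3)) * s ^ 2 = π) : v s < 1 ∧ v s ^ 2 = v π := by
  have e := congrArg v hs
  rw [map_mul, two_Pt h ha hb, one_mul, map_pow] at e
  refine ⟨?_, e⟩
  by_contra hn
  exact absurd (e ▸ h) (not_lt.2 (one_le_pow_of_one_le' (not_lt.1 hn) 2))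

theorem odd_Pt {a b π u : Ω} {j : ℕ} (h : v π < 1) (ha : v a ≤ 1) (hb : v b ≤ 1)
    (hu : π ^ 2 * (u ^ (2 * j) * (u ^ 3 + a * u + b)) = 1) :
    v (π * u ^ (j + 1)) < 1 ∧ v (π * u ^ j) < 1 ∧ v (π * u ^ (j + 1)) ^ (2 * j + 3) = v π := by
  have e := congrArg v hu
  rw [map_mul, map_mul, map_pow, map_pow, map_one] at e
  have x1 : 1 < v u := by
    by_contra hn
    have hn := not_lt.1 hn
    have h1 : v (u ^ 3 + a * u + b) ≤ 1 := v.map_add_le (v.map_add_le
      (by rw [map_pow]; exact pow_le_one' hn 3) (by rw [map_mul]; exact mul_le_one' ha hn)) hb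
    exact absurd e ((mul_le_of_le_one_right' (mul_le_one' (pow_le_one' hn _) h1)).trans_lt
      (pow_lt_one₀ zero_le h (by norm_num))).ne
  have h3 : v u < v (u ^ 3) := by rw [map_pow]; exact lt_self_pow₀ x1 (by norm_num)
  rw [add_assoc, v.map_add_eq_of_lt_left (v.map_add_lt
    (by rw [map_mul]; exact (mul_le_of_le_one_left' ha).trans_lt h3)
    (hb.trans_lt (x1.trans h3))), map_pow, ← pow_add] at e
  simp only [map_mul, map_pow]
  generalize v u = x at *
  generalize v π = p at *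
  have e1 : (p * x ^ (j + 1)) ^ 2 * x = 1 := by
    rw [← e, mul_pow, ← pow_mul, mul_assoc, ← pow_succ]
    congr 2
    omega
  have s1 : p * x ^ (j + 1) < 1 := by
    by_contra hn
    exact absurd (e1 ▸ le_mul_of_one_le_left' (one_le_pow_of_one_le' (not_lt.1 hn) 2))
      (not_le.2 x1)
  refine ⟨s1, lt_of_le_of_lt ?_ s1, ?_⟩
  · rw [pow_succ, ← mul_assoc]
    exact le_mul_of_one_le_right' x1.le
  · refine (pow_left_inj₀ zero_le zero_le two_ne_zero).1 (mul_right_cancel₀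
      (pow_ne_zero (2 * j + 3) (zero_lt_one.trans x1).ne') ?_)
    rw [e, ← pow_mul, mul_comm (2 * j + 3), pow_mul, ← mul_pow, e1, one_pow]

end

theorem s_pt : SPt := by
  intro K Ω _ _ _ _ L a b π ha hb hπ π0 m hm Γ₀ _ v₀ h1 h2 h3 hv
  have hL : ∀ (t : Ω), π ∈ IntermediateField.adjoin L {t} := fun t =>
    IntermediateField.algebraMap_mem _ (⟨π, hπ⟩ : L)
  have ht : ∀ (t : Ω), t ∈ IntermediateField.adjoin L {t} := fun t =>
    IntermediateField.mem_adjoin_simple_self _ t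
  rcases hm with rfl | ⟨j, rfl⟩
  · have e0 : 1 + (a * π ^ 2 + b * π ^ 3) ≠ 0 := fun e => by
      simpa [e] using two_Pt h1 h2 h3
    obtain ⟨s, hs⟩ := IsAlgClosed.exists_pow_nat_eq (π / (1 + (a * π ^ 2 + b * π ^ 3))) two_pos
    have hs' : (1 + (a * π ^ 2 + b * π ^ 3)) * s ^ 2 = π := by rw [hs, mul_div_cancel₀ _ e0]
    have s0 : s ≠ 0 := fun e => π0 (by rw [← hs', e]; simp)
    refine ⟨![s, π * s], ?_, s0, fun Γ _ v g1 g2 g3 i => ?_, ?_⟩
    · show π * s = s ^ 3 + a * s * (π * s) ^ 2 + b * (π * s) ^ 3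
      linear_combination -s * hs'
    · have := (two'_Pt g1 g2 g3 hs').1
      fin_cases i
      · exact this
      · show v (π * s) < 1
        rw [map_mul]
        exact (mul_le_of_le_one_left' g1.le).trans_lt this
    · refine rank_Pt (t := s) s0 (two'_Pt h1 h2 h3 hs').1 (two'_Pt h1 h2 h3 hs').2 hv
        (q := C (1 + ((⟨a, ha⟩ : L) * ⟨π, hπ⟩ ^ 2 + ⟨b, hb⟩ * ⟨π, hπ⟩ ^ 3)) * X ^ 2 - C ⟨π, hπ⟩)
        (fun e => π0 ?_) ?_ ?_ fun i => ?_
      · simpa using congrArg (aeval (0 : Ω)) e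
      · simpa [sub_eq_zero] using hs'
      · rw [natDegree_sub_C]
        exact natDegree_C_mul_X_pow_le _ _
      · fin_cases i
        · exact ht s
        · exact mul_mem (hL s) (ht s)
  · have m1 : (X ^ 3 + C (⟨a, ha⟩ : L) * X + C (⟨b, hb⟩ : L)).Monic := by monicity!
    have d1 : (X ^ 3 + C (⟨a, ha⟩ : L) * X + C (⟨b, hb⟩ : L)).natDegree = 3 := by compute_degree!
    have d2 : (C ((⟨π, hπ⟩ : L) ^ 2) * (X ^ (2 * j) * (X ^ 3 + C (⟨a, ha⟩ : L) * X +
        C (⟨b, hb⟩ : L))) - C 1).natDegree = 2 * j + 3 := by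
      rw [natDegree_sub_C, natDegree_C_mul (pow_ne_zero 2 fun e => π0 (congrArg Subtype.val e)),
        (monic_X_pow _).natDegree_mul m1, d1, natDegree_X_pow]
    obtain ⟨u, hu⟩ := IsAlgClosed.exists_aeval_eq_zero Ω _
      (natDegree_pos_iff_degree_pos.1 ((Nat.succ_pos _).trans_eq d2.symm)).ne'
    have hu' : π ^ 2 * (u ^ (2 * j) * (u ^ 3 + a * u + b)) = 1 := by
      simpa [sub_eq_zero] using hu
    obtain ⟨c1, -, c3⟩ := odd_Pt h1 h2 h3 hu'
    have s0 : π * u ^ (j + 1) ≠ 0 := fun e => π0 (by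
      rw [e, map_zero, zero_pow (by omega)] at c3
      exact (Valuation.zero_iff v₀).1 c3.symm)
    refine ⟨![π * u ^ (j + 1), π * u ^ j], ?_, s0, fun Γ _ v g1 g2 g3 i => ?_, ?_⟩
    · show π * u ^ j = (π * u ^ (j + 1)) ^ 3 + a * (π * u ^ (j + 1)) * (π * u ^ j) ^ 2 +
        b * (π * u ^ j) ^ 3
      linear_combination -(π * u ^ j) * hu'
    · fin_cases i
      · exact (odd_Pt g1 g2 g3 hu').1
      · exact (odd_Pt g1 g2 g3 hu').2.1
    · refine rank_Pt (t := u) s0 c1 c3 hv (fun e => ?_) hu d2.le fun i => ?_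
      · rw [e] at d2
        simp at d2
      · fin_cases i
        · exact mul_mem (hL u) (pow_mem (ht u) _)
        · exact mul_mem (hL u) (pow_mem (ht u) _)

end Pool.Agent.E6s
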