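import Pool.Agent.E6s.St2

set_option autoImplicit false

namespace Pool.Agent.E6s

open Polynomial

theorem odd_PtA {Ω Γ : Type} [Field Ω] [LinearOrderedCommGroupWithZero Γ] {v : Valuation Ω Γ}
    {a b c d π u : Ω} {j : ℕ} (h : v π < 1) (ha : v a = 1) (hb : v b ≤ 1) (hc : v c ≤ 1)
    (hd : v d ≤ 1) (hu : π ^ 2 * (u ^ (2 * j) * (a * u ^ 3 + (b * u ^ 2 + c * u + d))) = 1) :
    v u⁻¹ < 1 ∧ v (π * u ^ (j + 2))⁻¹ < 1 ∧ v (π * u ^ (j + 2))⁻¹ ^ (2 * j + 3) = v π := by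
  have e := congrArg v hu
  rw [map_mul, map_mul, map_pow, map_pow, map_one] at e
  have x1 : 1 < v u := by
    by_contra hn
    have hn := not_lt.1 hn
    have h1 : v (a * u ^ 3 + (b * u ^ 2 + c * u + d)) ≤ 1 := v.map_add_le
      (by rw [map_mul, map_pow]; exact mul_le_one' ha.le (pow_le_one' hn 3))
      (v.map_add_le (v.map_add_le
        (by rw [map_mul, map_pow]; exact mul_le_one' hb (pow_le_one' hn 2))
        (by rw [map_mul]; exact mul_le_one' hc hn)) hd)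
    exact absurd e ((mul_le_of_le_one_right' (mul_le_one' (pow_le_one' hn _) h1)).trans_lt
      (pow_lt_one₀ zero_le h (by norm_num))).ne
  have h4 : v (a * u ^ 3) = v u ^ 3 := by rw [map_mul, ha, one_mul, map_pow]
  have h3 : v u < v (a * u ^ 3) := by rw [h4]; exact lt_self_pow₀ x1 (by norm_num)
  have h2 : v u ^ 2 < v (a * u ^ 3) := by rw [h4]; exact pow_lt_pow_right₀ x1 (by norm_num)
  rw [v.map_add_eq_of_lt_left (v.map_add_lt (v.map_add_lt
    (by rw [map_mul, map_pow]; exact (mul_le_of_le_one_left' hb).trans_lt h2)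
    (by rw [map_mul]; exact (mul_le_of_le_one_left' hc).trans_lt h3))
    (hd.trans_lt (x1.trans h3))), h4, ← pow_add] at e
  simp only [map_inv₀, map_mul, map_pow]
  generalize v u = x at *
  generalize v π = p at *
  have x0 : 0 < x := zero_lt_one.trans x1
  have e1 : (p * x ^ (j + 2)) ^ 2 = x := by
    have : (p * x ^ (j + 2)) ^ 2 = p ^ 2 * x ^ (2 * j + 3) * x := by
      rw [mul_pow, ← pow_mul, mul_assoc, ← pow_succ]
      congr 2
      omega
    rw [this, e, one_mul]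
  have s1 : 1 < p * x ^ (j + 2) := by
    by_contra hn
    exact absurd (e1 ▸ pow_le_one' (not_lt.1 hn) 2) (not_le.2 x1)
  refine ⟨inv_lt_one_of_one_lt₀ x1, inv_lt_one_of_one_lt₀ s1, ?_⟩
  refine (pow_left_inj₀ zero_le zero_le two_ne_zero).1 ?_
  rw [← pow_mul, mul_comm (2 * j + 3), pow_mul, inv_pow, e1, inv_pow]
  exact (eq_inv_of_mul_eq_one_left e).symm

theorem s_ptA : SPtA := by
  intro K Ω _ _ _ _ _ L F hF h0 h1 hd j
  refine ⟨{F.coeff 1, F.coeff 2, F.coeff 3, F.coeff 4}, Set.toFinite _, ?_⟩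
  intro π hπ π0 Γ₀ _ v₀ g0 gT hv
  have hL : ∀ (t : Ω), π ∈ IntermediateField.adjoin L {t} := fun t =>
    IntermediateField.algebraMap_mem _ (⟨π, hπ⟩ : L)
  have ht : ∀ (t : Ω), t ∈ IntermediateField.adjoin L {t} := fun t =>
    IntermediateField.mem_adjoin_simple_self _ t
  have a0 : (⟨F.coeff 1, hF 1⟩ : L) ≠ 0 := fun e => h1 (congrArg Subtype.val e)
  set G : L[X] := C (⟨F.coeff 1, hF 1⟩ : L) * X ^ 3 + (C (⟨F.coeff 2, hF 2⟩ : L) * X ^ 2 +
    C (⟨F.coeff 3, hF 3⟩ : L) * X + C (⟨F.coeff 4, hF 4⟩ : L)) with hG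
  have d1 : G.natDegree = 3 := by
    rw [hG]
    compute_degree!
  have G0 : G ≠ 0 := fun e => by rw [e] at d1; simp at d1
  have d2 : (C ((⟨π, hπ⟩ : L) ^ 2) * (X ^ (2 * j) * G) - C 1).natDegree = 2 * j + 3 := by
    rw [natDegree_sub_C, natDegree_C_mul (pow_ne_zero 2 fun e => π0 (congrArg Subtype.val e)),
      natDegree_mul (monic_X_pow _).ne_zero G0, d1, natDegree_X_pow]
  obtain ⟨u, hu⟩ := IsAlgClosed.exists_aeval_eq_zero Ω _
    (natDegree_pos_iff_degree_pos.1 ((Nat.succ_pos _).trans_eq d2.symm)).ne'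
  have hu' : π ^ 2 * (u ^ (2 * j) * (F.coeff 1 * u ^ 3 +
      (F.coeff 2 * u ^ 2 + F.coeff 3 * u + F.coeff 4))) = 1 := by
    simpa [sub_eq_zero, hG] using hu
  have key : ∀ (Γ : Type) [LinearOrderedCommGroupWithZero Γ] (v : Valuation Ω Γ), v π < 1 →
      Good {F.coeff 1, F.coeff 2, F.coeff 3, F.coeff 4} v →
      v u⁻¹ < 1 ∧ v (π * u ^ (j + 2))⁻¹ < 1 ∧ v (π * u ^ (j + 2))⁻¹ ^ (2 * j + 3) = v π :=
    fun Γ _ v g1 g2 => odd_PtA g1 ((g2 _ (by simp)).2 h1) (g2 _ (by simp)).1 (g2 _ (by simp)).1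
      (g2 _ (by simp)).1 hu'
  obtain ⟨-, c2, c3⟩ := key Γ₀ v₀ g0 gT
  have w0 : (π * u ^ (j + 2))⁻¹ ≠ 0 := fun e => π0 (by
    rw [e, map_zero, zero_pow (by omega)] at c3
    exact (Valuation.zero_iff v₀).1 c3.symm)
  have u0 : u ≠ 0 := fun e => w0 (by rw [e]; simp)
  refine ⟨![u⁻¹, (π * u ^ (j + 2))⁻¹], ?_, inv_ne_zero u0, fun Γ _ v g1 g2 => ?_, ?_⟩
  · show ((π * u ^ (j + 2))⁻¹) ^ 2 = F.eval u⁻¹
    rw [eval_eq_sum_range' (n := 5) (by omega)]
    simp only [Finset.sum_range_succ, Finset.sum_range_zero, h0]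
    field_simp
    linear_combination -u ^ 4 * hu'
  · refine ⟨(key Γ v g1 g2).1, ?_⟩
    rw [sub_zero]
    exact (key Γ v g1 g2).2.1
  · have hr : Set.range ![u⁻¹, (π * u ^ (j + 2))⁻¹] = Set.range ![(π * u ^ (j + 2))⁻¹, u⁻¹] := by
      simp only [Matrix.range_cons, Matrix.range_empty, Set.union_empty]
      exact Set.union_comm _ _
    rw [hr]
    refine rank_Pt (t := u) w0 c2 c3 hv (fun e => ?_) hu d2.le fun i => ?_
    · rw [e] at d2
      simp at d2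
    · fin_cases i
      · exact inv_mem (mul_mem (hL u) (pow_mem (ht u) _))
      · exact inv_mem (ht u)

end Pool.Agent.E6s
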