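import Pool.Agent.E6s.St2

set_option autoImplicit false

namespace Pool.Agent.E6s

open Polynomial

theorem root_PtB {E : Type} [Field E] (h2 : (2 : E) ≠ 0) (G : E[X]) (hG : G.coeff 0 = 1) (k : ℕ) :
    ∃ B R : E[X], (X * B).natDegree ≤ k ∧ (1 + X * B) ^ 2 - G = X ^ (k + 1) * R := by
  induction k with
  | zero =>
    refine ⟨0, -G.divX, by simp, ?_⟩
    have e := G.X_mul_divX_add
    rw [hG, C_1] at e
    linear_combination e
  | succ k ih =>
    obtain ⟨B, R, hd, hR⟩ := ih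
    refine ⟨B - C (R.coeff 0 / 2) * X ^ k,
      R.divX - 2 * C (R.coeff 0 / 2) * B + C (R.coeff 0 / 2) ^ 2 * X ^ k, ?_, ?_⟩
    · rw [mul_sub, mul_left_comm, ← pow_succ']
      exact (natDegree_sub_le _ _).trans
        (max_le (hd.trans (Nat.le_succ k)) (natDegree_C_mul_X_pow_le _ _))
    · have e := R.X_mul_divX_add
      have e2 : C (R.coeff 0) = 2 * C (R.coeff 0 / 2) := by
        rw [← C_ofNat, ← C_mul, mul_div_cancel₀ _ h2]
      rw [e2] at e
      linear_combination hR - X ^ (k + 1) * e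

section
variable {K Ω : Type} [Field K] [Field Ω] [Algebra K Ω] {L : IntermediateField K Ω}
  {Γ : Type} [LinearOrderedCommGroupWithZero Γ] {v : Valuation Ω Γ}

theorem bound_PtB {P : L[X]} (hP : ∀ i, v (P.coeff i : Ω) ≤ 1) {x : Ω} {b : Γ}
    (hb : ∀ i ≤ P.natDegree, v x ^ i ≤ b) : v (aeval x P) ≤ b := by
  rw [aeval_eq_sum_range]
  refine v.map_sum_le fun i hi => ?_
  rw [Algebra.smul_def, map_mul, map_pow]
  exact (mul_le_of_le_one_left' (hP i)).trans (hb i (Nat.lt_succ_iff.1 (Finset.mem_range.1 hi)))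

theorem big_PtB {P : L[X]} (hP : ∀ i, v (P.coeff i : Ω) ≤ 1) {m : ℕ}
    (hd : (X * P).natDegree ≤ m) {x : Ω} (hx : 1 ≤ v x) : v (x * aeval x P) ≤ v x ^ m := by
  have h := bound_PtB (v := v) (P := X * P) (fun i => by
    cases i with
    | zero => simp
    | succ i => rw [coeff_X_mul]; exact hP i) (x := x) (b := v x ^ m)
    (fun i hi => pow_le_pow_right' hx (hi.trans hd))
  rwa [map_mul, aeval_X] at h

theorem small_PtB {P : L[X]} (hP : ∀ i, v (P.coeff i : Ω) ≤ 1) {x : Ω} (hx : v x < 1) :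
    v (x * aeval x P) < 1 := by
  rw [map_mul]
  exact (mul_le_of_le_one_right' (bound_PtB hP fun i _ => pow_le_one' hx.le i)).trans_lt hx

theorem lt_PtB {B R : L[X]} (hB : ∀ i, v (B.coeff i : Ω) ≤ 1) (hR : ∀ i, v (R.coeff i : Ω) ≤ 1)
    {m : ℕ} (dB : (X * B).natDegree ≤ m) (dR : (X * R).natDegree ≤ m) {π x : Ω} (hπ : v π < 1)
    (h2 : v 2 = 1) (hx : 1 ≤ v x) :
    v (π * (2 * (1 + x * aeval x B) - π * (x * aeval x R))) < v x ^ m := by
  have h1 : 1 ≤ v x ^ m := one_le_pow_of_one_le' hx m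
  have h3 : v (2 * (1 + x * aeval x B) - π * (x * aeval x R)) ≤ v x ^ m := by
    refine v.map_sub_le ?_ ?_
    · rw [map_mul, h2, one_mul]
      exact v.map_add_le (by rwa [map_one]) (big_PtB hB dB hx)
    · rw [map_mul]
      exact (mul_le_of_le_one_left' hπ.le).trans (big_PtB hR dR hx)
  rw [map_mul]
  exact (mul_le_mul_right h3 _).trans_lt
    (mul_lt_of_lt_one_left (zero_lt_one.trans_le h1) hπ)

theorem key_PtB {B R : L[X]} (hB : ∀ i, v (B.coeff i : Ω) ≤ 1) (hR : ∀ i, v (R.coeff i : Ω) ≤ 1)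
    {m : ℕ} (dB : (X * B).natDegree ≤ m) (dR : (X * R).natDegree ≤ m) {π s : Ω} (hπ : v π < 1)
    (h2 : v 2 = 1) (hs : s ^ m = π * (2 * (1 + s * aeval s B) - π * (s * aeval s R))) :
    v s < 1 ∧ v s ^ m = v π ∧ v (s * aeval s B - π * (s * aeval s R)) < 1 := by
  have s1 : v s < 1 := by
    by_contra hn
    have h := lt_PtB hB hR dB dR hπ h2 (not_lt.1 hn)
    rw [← hs, map_pow] at h
    exact lt_irrefl _ h
  have a1 := small_PtB hB s1
  have a2 : v (π * (s * aeval s R)) < 1 := by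
    rw [map_mul]
    exact (mul_le_of_le_one_left' hπ.le).trans_lt (small_PtB hR s1)
  have a3 : v (2 * (1 + s * aeval s B)) = 1 := by
    rw [map_mul, h2, one_mul, v.map_one_add_of_lt a1]
  refine ⟨s1, ?_, v.map_sub_lt a1 a2⟩
  rw [← map_pow, hs, map_mul, v.map_sub_eq_of_lt_left (by rwa [a3]), a3, mul_one]

end

theorem s_ptB : SPtB := by
  intro K Ω _ _ _ _ _ L F w₀ hF hw w0 hw0 hd m hm
  obtain ⟨F', hF', hd'⟩ := exists_natDegree_eq_of_mem_lifts (f := algebraMap L Ω) (p := F)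
    ((lifts_iff_coeff_lifts F).2 fun n => ⟨⟨_, hF n⟩, rfl⟩)
  have two : (2 : Ω) ≠ 0 := two_ne_zero
  have h2 : (2 : L) ≠ 0 := fun e => two (congrArg Subtype.val e)
  have w1 : (⟨w₀, hw⟩ : L) ≠ 0 := fun e => w0 (congrArg Subtype.val e)
  have e0 : F'.coeff 0 = (⟨w₀, hw⟩ : L) ^ 2 := by
    apply Subtype.ext
    rw [← coeff_zero_eq_eval_zero, ← hF', coeff_map] at hw0
    exact hw0.symm
  obtain ⟨B, R, dB, hR⟩ := root_PtB h2 (C ((⟨w₀, hw⟩ : L) ^ 2)⁻¹ * F')
    (by rw [coeff_C_mul, e0, inv_mul_cancel₀ (pow_ne_zero 2 w1)]) m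
  have dR : (X * R).natDegree ≤ m := by
    by_cases r0 : R = 0
    · simp [r0]
    have h1 : (X ^ (m + 1) * R).natDegree ≤ 2 * m := by
      rw [← hR]
      refine (natDegree_sub_le _ _).trans (max_le (natDegree_pow_le_of_le 2 ?_) ?_)
      · exact (natDegree_add_le _ _).trans (max_le (by simp) dB)
      · exact (natDegree_C_mul_le _ _).trans (by omega)
    rw [natDegree_X_pow_mul _ r0] at h1
    rw [natDegree_X_mul r0]
    omega
  have fin : ∀ P : L[X], (Set.range fun i => (P.coeff i : Ω)).Finite := fun P => by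
    have := P.finite_range_coeff.image (fun c : L => (c : Ω))
    rwa [← Set.range_comp] at this
  refine ⟨{2, w₀} ∪ (Set.range (fun i => (B.coeff i : Ω)) ∪ Set.range fun i => (R.coeff i : Ω)),
    (Set.toFinite _).union ((fin B).union (fin R)), fun π hπ π0 Γ₀ _ v₀ p1 g₀ hv => ?_⟩
  have gd : ∀ (Γ : Type) [LinearOrderedCommGroupWithZero Γ] (v : Valuation Ω Γ),
      Good ({2, w₀} ∪ (Set.range (fun i => (B.coeff i : Ω)) ∪
        Set.range fun i => (R.coeff i : Ω))) v → v 2 = 1 ∧ v w₀ ≤ 1 ∧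
        (∀ i, v (B.coeff i : Ω) ≤ 1) ∧ ∀ i, v (R.coeff i : Ω) ≤ 1 := fun Γ _ v g =>
    ⟨(g 2 (Or.inl (Or.inl rfl))).2 two, (g w₀ (Or.inl (Or.inr rfl))).1,
      fun i => (g _ (Or.inr (Or.inl ⟨i, rfl⟩))).1, fun i => (g _ (Or.inr (Or.inr ⟨i, rfl⟩))).1⟩
  obtain ⟨b1, -, b3, b4⟩ := gd Γ₀ v₀ g₀
  set q : L[X] := X ^ m - C ⟨π, hπ⟩ * (2 * (1 + X * B) - C ⟨π, hπ⟩ * (X * R)) with hq
  have ev : ∀ x : Ω, aeval x q =
      x ^ m - π * (2 * (1 + x * aeval x B) - π * (x * aeval x R)) := fun x => by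
    simp only [hq, map_sub, map_mul, map_add, map_pow, aeval_X, aeval_C, map_one, map_ofNat]
    rfl
  have nc : ∀ c : L, q ≠ C c := fun c e => by
    have e1 : aeval (1 : Ω) q = aeval (0 : Ω) q := by rw [e, aeval_C, aeval_C]
    have l1 := lt_PtB b3 b4 dB dR p1 b1 (x := 1) (by rw [map_one])
    rw [map_one, one_pow] at l1
    have l2 : v₀ (π * 2) < 1 := by rwa [map_mul, b1, mul_one]
    have l3 := v₀.map_sub_lt l1 l2
    rw [ev, ev, one_pow, zero_pow (by omega)] at e1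
    rw [show π * (2 * (1 + 1 * aeval 1 B) - π * (1 * aeval 1 R)) - π * 2 = 1 by
      linear_combination -e1, map_one] at l3
    exact lt_irrefl _ l3
  obtain ⟨s, hs⟩ := IsAlgClosed.exists_aeval_eq_zero Ω q
    fun e => nc _ (eq_C_of_degree_eq_zero e)
  have hs' : s ^ m = π * (2 * (1 + s * aeval s B) - π * (s * aeval s R)) := by
    rwa [ev, sub_eq_zero] at hs
  obtain ⟨c1, c2, -⟩ := key_PtB b3 b4 dB dR p1 b1 hs'
  have s0 : s ≠ 0 := fun e => π0 (by
    rw [e, map_zero, zero_pow (by omega)] at c2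
    exact (Valuation.zero_iff v₀).1 c2.symm)
  refine ⟨![s, w₀ * (1 + (s * aeval s B - π * (s * aeval s R)))], ?_, s0,
    fun Γ _ v g1 g2 => ?_, ?_⟩
  · show (w₀ * (1 + (s * aeval s B - π * (s * aeval s R)))) ^ 2 = F.eval s
    have e1 := congrArg (aeval s) hR
    simp only [map_sub, map_mul, map_add, map_pow, aeval_X, aeval_C, map_one, map_inv₀] at e1
    rw [← hF', eval_map_algebraMap]
    have e2 : algebraMap L Ω ⟨w₀, hw⟩ = w₀ := rfl
    rw [e2] at e1
    have e3 : w₀ ^ 2 * (w₀ ^ 2)⁻¹ = 1 := mul_inv_cancel₀ (pow_ne_zero 2 w0)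
    linear_combination w₀ ^ 2 * e1 + aeval s F' * e3 + w₀ ^ 2 * s * aeval s R * hs'
  · obtain ⟨a1, a2, a3, a4⟩ := gd Γ v g2
    obtain ⟨d1, -, d3⟩ := key_PtB a3 a4 dB dR g1 a1 hs'
    refine ⟨d1, ?_⟩
    show v (w₀ * (1 + (s * aeval s B - π * (s * aeval s R))) - w₀) < 1
    rw [mul_add, mul_one, add_sub_cancel_left, map_mul]
    exact (mul_le_of_le_one_left' a2).trans_lt d3
  · have hL : ∀ c : L, (c : Ω) ∈ IntermediateField.adjoin L {s} := fun c =>
      IntermediateField.algebraMap_mem _ c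
    have ht : s ∈ IntermediateField.adjoin L {s} := IntermediateField.mem_adjoin_simple_self _ s
    have hP : ∀ P : L[X], aeval s P ∈ IntermediateField.adjoin L {s} := fun P =>
      IntermediateField.algebra_adjoin_le_adjoin _ _ (aeval_mem_adjoin_singleton _ _)
    refine rank_Pt (t := s) s0 c1 c2 hv (q := q) (fun e => nc 0 (by rw [e, C_0])) hs ?_ fun i => ?_
    · refine (natDegree_sub_le _ _).trans (max_le (natDegree_X_pow_le _)
        ((natDegree_C_mul_le _ _).trans ((natDegree_sub_le _ _).trans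
          (max_le ?_ ((natDegree_C_mul_le _ _).trans dR)))))
      rw [← C_ofNat]
      exact (natDegree_C_mul_le _ _).trans ((natDegree_add_le _ _).trans (max_le (by simp) dB))
    · fin_cases i
      · exact ht
      · exact mul_mem (hL ⟨w₀, hw⟩) (add_mem (one_mem _) (sub_mem (mul_mem ht (hP B))
          (mul_mem (hL ⟨π, hπ⟩) (mul_mem ht (hP R)))))

end Pool.Agent.E6s
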