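import Pool.Agent.E6s.Defs

/- Statements of the steps. -/

set_option autoImplicit false

namespace Pool.Agent.E6s

open MvPolynomial

/-- A nontrivial abelian normal subgroup of prime power order. -/
def SV : Prop := ∀ (G : Type) [Group G] [Finite G] [Group.IsSolvable G] [Nontrivial G],
  ∃ (p : ℕ) (V : Subgroup G), p.Prime ∧ V.Normal ∧ V ≠ ⊥ ∧ IsPGroup p V ∧
    ∀ a ∈ V, ∀ b ∈ V, a * b = b * a

/-- Complements of Sylow subgroups in solvable groups. -/
def SHall : Prop := ∀ (G : Type) [Group G] [Finite G] [Group.IsSolvable G] (p : ℕ), p.Prime →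
  ∃ Q : Subgroup G, (Nat.card Q).Coprime p ∧ ∃ b, Q.index = p ^ b

/-- Averaging. -/
def SAvg : Prop := ∀ (G : Type) [Group G] [Finite G] (V U Q : Subgroup G), V.Normal →
  (∀ a ∈ V, ∀ b ∈ V, a * b = b * a) → (Nat.card Q).Coprime (Nat.card V) → Q ≤ U ⊔ V →
  ∃ v ∈ V, Q ≤ U.map (MulAut.conj v).toMonoidHom

/-- Changing the upper group does not change the relative index. -/
def SRel : Prop := ∀ (Γ : Type) [Group Γ] (A B U : Subgroup Γ), A.Normal → A ≤ B → B ≤ U ⊔ A →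
  U.relIndex B = U.relIndex A

/-- An orbit whose length divides the degree: solvable groups. -/
def SSolv : Prop := ∀ (G : Type) [Group G] [Finite G] [Group.IsSolvable G] (H U : Subgroup G),
  ∃ g : G, (U.map (MulAut.conj g).toMonoidHom).relIndex H ∣ U.index

/-- An orbit whose length divides the degree. -/
def SGrp : Prop := ∀ (Γ G : Type) [Group Γ] [Group G] [Finite G] (ρ : Γ →* G),
  Function.Surjective ρ → ∀ H : Subgroup G,
    Group.IsSolvable (Subgroup.normalClosure (H : Set G)) → ∀ U : Subgroup Γ,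
      ∃ g : Γ, (U.map (MulAut.conj g).toMonoidHom).relIndex (H.comap ρ) ∣ U.index

/-- For all valuations above all large primes. -/
def Ev (Ω : Type) [Field Ω]
    (Φ : ∀ (Γ : Type) [LinearOrderedCommGroupWithZero Γ], Valuation Ω Γ → Prop) : Prop :=
  ∃ N : ℕ, ∀ p : ℕ, p.Prime → N ≤ p → ∀ (Γ : Type) [LinearOrderedCommGroupWithZero Γ]
    (v : Valuation Ω Γ), v (p : Ω) < 1 → Φ Γ v

/-- Algebraic numbers are units at large primes. -/
def SFin : Prop := ∀ (Ω : Type) [Field Ω] [CharZero Ω] [Algebra.IsAlgebraic ℚ Ω] (T : Set Ω),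
  T.Finite → Ev Ω fun _ _ v => ∀ α ∈ T, v α ≤ 1 ∧ (α ≠ 0 → v α = 1)

/-- Polynomials preserve congruences. -/
def SClose : Prop := ∀ (Ω : Type) [Field Ω] [CharZero Ω] [Algebra.IsAlgebraic ℚ Ω] (ι : Type)
  (Q : MvPolynomial ι Ω) (y₀ : ι → Ω), Ev Ω fun _ _ v => ∀ y : ι → Ω,
    (∀ i, v (y i - y₀ i) < 1) → v (eval y Q - eval y₀ Q) < 1

/-- A uniformizer which lies in all primes above `p`. -/
def SUnif : Prop := ∀ (K Ω : Type) [Field K] [NumberField K] [Field Ω] [Algebra K Ω]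
  (L : IntermediateField K Ω) [FiniteDimensional K L] (p : ℕ), p.Prime → ∃ π ∈ L, π ≠ 0 ∧
    (∀ (Γ : Type) [LinearOrderedCommGroupWithZero Γ] (v : Valuation Ω Γ), v (p : Ω) < 1 →
      v π < 1) ∧
    ∃ (Γ : Type) (_ : LinearOrderedCommGroupWithZero Γ) (v : Valuation Ω Γ), v (p : Ω) < 1 ∧
      ∀ c ∈ L, c ≠ 0 → ∃ n : ℤ, v c = v π ^ n

/-- Totally ramified points near the origin. -/
def SPt : Prop := ∀ (K Ω : Type) [Field K] [Field Ω] [IsAlgClosed Ω] [Algebra K Ω]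
  (L : IntermediateField K Ω) (a b π : Ω), a ∈ L → b ∈ L → π ∈ L → π ≠ 0 →
  ∀ m : ℕ, (m = 2 ∨ ∃ j, m = 2 * j + 3) →
  ∀ (Γ₀ : Type) [LinearOrderedCommGroupWithZero Γ₀] (v₀ : Valuation Ω Γ₀),
    v₀ π < 1 → v₀ a ≤ 1 → v₀ b ≤ 1 → (∀ c ∈ L, c ≠ 0 → ∃ n : ℤ, v₀ c = v₀ π ^ n) →
    ∃ y ∈ cubic a b, y 0 ≠ 0 ∧
      (∀ (Γ : Type) [LinearOrderedCommGroupWithZero Γ] (v : Valuation Ω Γ), v π < 1 → v a ≤ 1 →
        v b ≤ 1 → ∀ i, v (y i) < 1) ∧
      Module.finrank L (IntermediateField.adjoin L (Set.range y)) = m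

/-- Extended ideals contract to themselves. -/
def SFF : Prop := ∀ (K Ω ι : Type) [Field K] [Field Ω] [Algebra K Ω]
  (J : Ideal (MvPolynomial ι K)) (g : MvPolynomial ι K),
    MvPolynomial.map (algebraMap K Ω) g ∈ J.map (MvPolynomial.map (algebraMap K Ω)) → g ∈ J

end Pool.Agent.E6s
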