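import Pool.Agent.E6s.Mul

set_option autoImplicit false

namespace Pool.Agent.E6s

open MvPolynomial

theorem Inj.map {Ω ι : Type} [Field Ω] {F : Polynomial Ω} {P : ι → MvPolynomial (Fin 2) Ω}
    {S : Set (Fin 2 → Ω)} (h : Inj F P S) (σ : Ω ≃+* Ω) :
    Inj (F.map (σ : Ω →+* Ω)) (fun i => MvPolynomial.map (σ : Ω →+* Ω) (P i))
      ((fun y => σ ∘ y) '' S) := by
  have key : ∀ y ∈ hyp (F.map (σ : Ω →+* Ω)) \ ((fun y => σ ∘ y) '' S),
      ∃ z ∈ hyp F \ S, y = σ ∘ z := fun y hy => by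
    have e : y = σ ∘ (σ.symm ∘ y) := funext fun i => (σ.apply_symm_apply _).symm
    refine ⟨σ.symm ∘ y, ⟨?_, fun h => hy.2 ⟨_, h, e.symm⟩⟩, e⟩
    have h1 := map_hyp (σ.symm : Ω →+* Ω) hy.1
    rwa [Polynomial.map_map, RingEquiv.symm_comp, Polynomial.map_id] at h1
  intro y hy y' hy' hp
  obtain ⟨z, hz, rfl⟩ := key y hy
  obtain ⟨z', hz', rfl⟩ := key y' hy'
  rw [h z hz z' hz' fun i j => σ.injective ?_]
  have e : ∀ (u : Fin 2 → Ω) i, σ (eval u (P i)) =
      eval (σ ∘ u) (MvPolynomial.map (σ : Ω →+* Ω) (P i)) :=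
    fun u i => map_eval (σ : Ω →+* Ω) u (P i)
  rw [map_mul, map_mul, e, e, e, e]
  exact hp i j

theorem finrank_two {K Ω : Type} [Field K] [Field Ω] [Algebra K Ω] {s c : K} {w : Ω}
    (hw : w ^ 2 = algebraMap K Ω c) (hc : ¬ IsSquare c) :
    Module.finrank K (IntermediateField.adjoin K (Set.range ![algebraMap K Ω s, w])) = 2 := by
  have e : IntermediateField.adjoin K (Set.range ![algebraMap K Ω s, w]) =
      IntermediateField.adjoin K {w} := by
    refine le_antisymm (IntermediateField.adjoin_le_iff.2 ?_)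
      (IntermediateField.adjoin.mono _ _ _ (Set.singleton_subset_iff.2 ⟨1, rfl⟩))
    rintro _ ⟨i, rfl⟩
    fin_cases i
    · exact IntermediateField.algebraMap_mem _ s
    · exact IntermediateField.mem_adjoin_simple_self K w
  have hm : (Polynomial.X ^ 2 - Polynomial.C c).Monic := Polynomial.monic_X_pow_sub_C c two_ne_zero
  have h0 : Polynomial.aeval w (Polynomial.X ^ 2 - Polynomial.C c) = 0 := by simp [hw]
  have hi : IsIntegral K w := ⟨_, hm, h0⟩
  have h1 := Polynomial.natDegree_le_of_dvd (minpoly.dvd K w h0) hm.ne_zero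
  have h2 := (minpoly.two_le_natDegree_iff hi).2 (by
    rintro ⟨r, rfl⟩
    exact hc ⟨r, (algebraMap K Ω).injective (by rw [← hw, map_mul, sq])⟩)
  rw [Polynomial.natDegree_X_pow_sub_C] at h1
  rw [e, IntermediateField.adjoin.finrank hi]
  omega

variable {K Ω ι : Type} [Field K] [NumberField K] [Field Ω] [Algebra K Ω] [IsAlgClosure K Ω]
  [Finite ι] {F : Polynomial Ω} {w₀ : Ω} {P : ι → MvPolynomial (Fin 2) Ω} {S : Set (Fin 2 → Ω)}
  {x : ι → Ω}

/-- Points of degree `2 e` near a point of degree `e`. -/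
theorem near_two (hE : SElim) (hN : SNsq) (hG : SGrid) (L : IntermediateField K Ω)
    [FiniteDimensional K L] (hx : x ≠ 0) (hxP : ∀ i, x i = eval ![0, w₀] (P i))
    (hF : ∀ i, F.coeff i ∈ L) (hc : ∀ i d, coeff d (P i) ∈ L) (hS : S.Finite) (hinj : Inj F P S)
    (hsep : F.Separable) (hdeg : 0 < F.natDegree) (hw : w₀ ^ 2 = F.eval 0) (g : MvPolynomial ι Ω)
    (hg : eval x g ≠ 0) :
    ∃ y ∈ hyp F, (fun i => eval y (P i)) ≠ 0 ∧ eval (fun i => eval y (P i)) g ≠ 0 ∧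
      Module.finrank K (rf K fun i => eval y (P i)) = Module.finrank K L * 2 := by
  have : CharZero Ω := charZero_of_injective_algebraMap (algebraMap K Ω).injective
  have : IsAlgClosed Ω := IsAlgClosure.isAlgClosed K
  have : Algebra.IsAlgebraic ℚ Ω := Algebra.IsAlgebraic.trans ℚ K Ω
  have hgal : IsGalois K Ω := {}
  have : NumberField L := NumberField.of_module_finite K L
  obtain ⟨F₀, rfl⟩ : ∃ F₀ : Polynomial L, F₀.map (algebraMap L Ω) = F :=
    (Polynomial.mem_lifts _).1 ((Polynomial.lifts_iff_coeff_lifts _).2 fun i => ⟨⟨_, hF i⟩, rfl⟩)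
  have hR : ∀ τ : L →ₐ[K] Ω, ∃ R : MvPolynomial (Fin 2) Ω, R ≠ 0 ∧ ∀ σ : Ω ≃ₐ[K] Ω,
      (∀ t : L, σ t = τ t) → ∀ y ∈ hyp (F₀.map (algebraMap L Ω)),
        (∀ i j, σ (eval y (P i)) * eval y (P j) = σ (eval y (P j)) * eval y (P i)) →
          eval ![y 0, σ (y 0)] R = 0 := fun τ => by
    by_cases h : ∃ σ : Ω ≃ₐ[K] Ω, ∀ t : L, σ t = τ t
    · obtain ⟨σ₀, h₀⟩ := h
      obtain ⟨R, R0, hR⟩ := hE Ω ι _ _ _ _ _ _ hS (hS.image _) hinj (hinj.map σ₀.toRingEquiv)
      refine ⟨R, R0, fun σ h y hy hp => hR y hy (σ ∘ y) ?_ fun i j => ?_⟩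
      · have e : (F₀.map (algebraMap L Ω)).map (σ₀.toRingEquiv : Ω →+* Ω) =
            (F₀.map (algebraMap L Ω)).map (σ : Ω →+* Ω) := by
          rw [Polynomial.map_map, Polynomial.map_map]
          congr 1
          exact RingHom.ext fun t => (h₀ t).trans (h t).symm
        exact e ▸ map_hyp (σ : Ω →+* Ω) hy
      · have e : ∀ i, eval (σ ∘ y) (MvPolynomial.map (σ₀.toRingEquiv : Ω →+* Ω) (P i)) =
            σ (eval y (P i)) := fun i => by
          rw [map_fix (σ' := (σ : Ω →+* Ω)) (fun t ht => (h₀ ⟨t, ht⟩).trans (h ⟨t, ht⟩).symm)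
            (hc i)]
          exact (map_eval (σ : Ω →+* Ω) y (P i)).symm
        rw [e, e, hp]
    · exact ⟨1, one_ne_zero, fun σ h' => (h ⟨σ, h'⟩).elim⟩
  choose R R0 hR using hR
  obtain ⟨N₁, h₁⟩ := ev_close hx hxP g hg
  obtain ⟨N₂, h₂⟩ := s_close Ω Unit
    (Polynomial.aeval (X () : MvPolynomial Unit Ω) (F₀.map (algebraMap L Ω))) 0
  obtain ⟨p, hpN, hp⟩ := Nat.exists_infinite_primes (N₁ + N₂)
  obtain ⟨-, -, -, -, Γ, _, v, v1, -⟩ := s_unif K Ω L p hp
  replace h₁ := h₁ p hp (by omega) Γ v v1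
  replace h₂ := h₂ p hp (by omega) Γ v v1
  obtain ⟨s₁, M, s1, s2, s3⟩ := hN L F₀ ((Polynomial.separable_map _).1 hsep)
    (by rwa [Polynomial.natDegree_map] at hdeg) p hp.pos
  obtain ⟨β, b1, b2, b3⟩ := hG K L Ω L.val R R0 (p * s₁) (p * M) (Nat.mul_pos hp.pos s2) _
    (hS.image fun y => y 0)
  have hs := s3 β b1
  rw [show (p : L) * s₁ + (p * M : ℕ) * β = p * (s₁ + M * β) by push_cast; ring] at b2 b3
  have hv : v (algebraMap L Ω (p * (s₁ + M * β))) < 1 := by
    rw [map_mul, map_mul, map_natCast]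
    refine mul_lt_one_of_nonneg_of_lt_one_left zero_le v1 (int_Val v ?_)
    exact (s1.add ((isIntegral_natCast M).mul b1)).map (algebraMap L Ω).toIntAlgHom
  generalize (p : L) * (s₁ + M * β) = s at hs b2 b3 hv
  have hev : ∀ u : Ω, eval (fun _ => u) (Polynomial.aeval (X () : MvPolynomial Unit Ω)
      (F₀.map (algebraMap L Ω))) = (F₀.map (algebraMap L Ω)).eval u := fun u => by
    rw [← coe_aeval_eq_eval, RingHom.coe_coe, ← Polynomial.aeval_algHom_apply, aeval_X,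
      Polynomial.coe_aeval_eq_eval]
  obtain ⟨w, w1, w2⟩ : ∃ w : Ω, w ^ 2 = (F₀.map (algebraMap L Ω)).eval (algebraMap L Ω s) ∧
      v (w - w₀) < 1 := by
    obtain ⟨w, w1⟩ := IsAlgClosed.exists_pow_nat_eq
      ((F₀.map (algebraMap L Ω)).eval (algebraMap L Ω s)) two_pos
    have h3 := h₂ (fun _ => algebraMap L Ω s) fun _ => by simpa using hv
    rw [hev, show (0 : Unit → Ω) = fun _ => 0 from rfl, hev, ← w1, ← hw,
      show w ^ 2 - w₀ ^ 2 = (w - w₀) * -(-w - w₀) by ring, map_mul, v.map_neg] at h3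
    by_cases h : v (w - w₀) < 1
    · exact ⟨w, w1, h⟩
    · refine ⟨-w, (neg_sq w).trans w1, by_contra fun h' => ?_⟩
      exact absurd h3 (not_lt.2 (one_le_mul (not_lt.1 h) (not_lt.1 h')))
  have hy : ![algebraMap L Ω s, w] ∈ hyp (F₀.map (algebraMap L Ω)) := w1
  obtain ⟨-, ⟨i₀, hz0⟩, hz⟩ := h₁ ![algebraMap L Ω s, w] hv w2
  refine ⟨_, hy, Function.ne_iff.2 ⟨i₀, hz0⟩, hz, ?_⟩
  rw [Polynomial.eval_map_algebraMap, Polynomial.aeval_algebraMap_apply_eq_algebraMap_eval] at w1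
  have h2 := finrank_two (s := s) w1 hs
  refine (fin_deg (L := L) hc hz0 fun σ hpar => ?_).trans (by rw [h2])
  have hτ : (σ : Ω →ₐ[K] Ω).comp L.val = L.val := by
    by_contra h
    have h4 := hR ((σ : Ω →ₐ[K] Ω).comp L.val) σ (fun _ => rfl) _ hy hpar
    have e : (![![algebraMap L Ω s, w] 0, σ (![algebraMap L Ω s, w] 0)] : Fin 2 → Ω) =
        ![L.val s, ((σ : Ω →ₐ[K] Ω).comp L.val) s] := rfl
    rw [e] at h4
    exact b3 _ h h4
  have hL : ∀ t ∈ L, σ t = t := fun t ht => DFunLike.congr_fun hτ ⟨t, ht⟩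
  have hb : ∀ y : Fin 2 → Ω, y 0 = L.val s → y ∉ S := fun y h h' => b2 ⟨y, h', h⟩
  exact ⟨hL, fix_pt hF hc hinj hy σ hL (hb _ rfl) (hb _ (hL _ s.2)) hpar⟩

section
variable {k : Type} [Field k] (X : ProjVar k) (K : Type) [Field K] [NumberField K] [Algebra k K]
  [Algebra.IsAlgebraic k K]

theorem mul_step (hA : SPtA) (hB : SPtB) (hE : SElim) (hN : SNsq) (hG : SGrid) (hX : X.Covered K)
    {e m : ℕ} (he : e ∈ X.delta K) (hm : m = 2 ∨ ∃ j, m = 2 * j + 3) : e * m ∈ X.delta K := by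
  obtain ⟨n, h, h1, h2, h3⟩ := hX
  refine ⟨Nat.mul_pos he.1 (by omega), fun r g hg hv => ?_⟩
  refine ((prime_ext X K).mem_or_mem (he.2 _ _ (hg.mul h1) fun x hx => ?_)).resolve_right h2
  rw [map_mul, mul_eq_zero]
  refine or_iff_not_imp_right.2 fun hh => ?_
  obtain ⟨F, w₀, c, P, S, hF, hw, hc, f1, f2, f3, f4, f5, hxP, hI, hS, hinj⟩ :=
    h3 x hx.1 hx.2.1 hh
  replace hinj : Inj F P S := fun y hy y' hy' => hinj y hy.2 y' hy'.2 hy.1 hy'.1
  obtain rfl : x = fun i => c * eval ![0, w₀] (P i) := funext hxP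
  have hc0 : c ≠ 0 := fun e => hx.1 (funext fun i => by simp [e])
  have hr : resField K (fun i => c * eval ![0, w₀] (P i)) = rf K fun i => eval ![0, w₀] (P i) := by
    simp only [resField, rf, mul_div_mul_left _ _ hc0]
  have hd := hx.2.2
  rw [hr] at hF hw hc hd
  have : FiniteDimensional K (rf K fun i => eval ![0, w₀] (P i)) :=
    Module.finite_of_finrank_pos (hd ▸ he.1)
  have : CharZero (AlgebraicClosure K) :=
    charZero_of_injective_algebraMap (algebraMap K _).injective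
  rw [aeval_scale hg, mul_eq_zero]
  refine Or.inr (by_contra fun h0 => ?_)
  have hx0 : (fun i => eval ![0, w₀] (P i)) ≠ 0 :=
    fun e => hx.1 (funext fun i => mul_eq_zero_of_right c (congrFun e i))
  have hg0 : eval (fun i => eval ![0, w₀] (P i)) (MvPolynomial.map (algebraMap K _) g) ≠ 0 := by
    rwa [eval_map, ← aeval_def]
  obtain ⟨y, y1, y2, y3, y4⟩ : ∃ y ∈ hyp F, (fun i => eval y (P i)) ≠ 0 ∧
      eval (fun i => eval y (P i)) (MvPolynomial.map (algebraMap K _) g) ≠ 0 ∧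
      Module.finrank K (rf K fun i => eval y (P i)) =
        Module.finrank K (rf K fun i => eval ![0, w₀] (P i)) * m := by
    rcases hm with rfl | ⟨j, rfl⟩
    · exact near_two hE hN hG _ hx0 (fun _ => rfl) hF hc hS hinj f1 f2 f5 _ hg0
    refine near hx0 (fun _ => rfl) hF hc hS hinj ?_ _ hg0
    by_cases h0 : w₀ = 0
    · subst h0
      have e0 : F.eval 0 = 0 := by simpa using f5.symm
      refine hA K _ _ F hF (by rwa [Polynomial.coeff_zero_eq_eval_zero]) (fun e1 => ?_) (f4 rfl) j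
      obtain ⟨a, b, hab⟩ := f1
      have e2 := congrArg (Polynomial.eval 0) hab
      rw [Polynomial.eval_add, Polynomial.eval_mul, Polynomial.eval_mul, e0,
        ← Polynomial.coeff_zero_eq_eval_zero (Polynomial.derivative F),
        Polynomial.coeff_derivative, zero_add, e1] at e2
      simp at e2
    · exact hB K _ _ F w₀ hF hw h0 f5 f3 _ (by omega)
  rw [eval_map, ← aeval_def] at y3
  exact y3 (hv _ ⟨y2, hI y y1, hd ▸ y4⟩)

theorem mul_mem_delta (hA : SPtA) (hB : SPtB) (hE : SElim) (hN : SNsq) (hG : SGrid)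
    (hX : X.Covered K) {e : ℕ} (he : e ∈ X.delta K) (m : ℕ) (hm : 0 < m) :
    e * m ∈ X.delta K := by
  induction m using Nat.strong_induction_on with
  | _ m ih =>
    rcases Nat.even_or_odd' m with ⟨j, rfl | rfl⟩
    · rw [mul_comm 2, ← mul_assoc]
      exact mul_step X K hA hB hE hN hG hX (ih j (by omega) (by omega)) (Or.inl rfl)
    · rcases j with _ | j
      · simpa using he
      · exact mul_step X K hA hB hE hN hG hX he (Or.inr ⟨j, by omega⟩)

end

end Pool.Agent.E6s
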